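import Pool.Agent.Run7.h843.QJ.CvG
import Pool.Agent.Run7.h26.QI.Ct9

/-!
# The converse for all the classes
-/

set_option autoImplicit false
set_option linter.unusedSectionVars false

open NumberField IsDedekindDomain WithZero

namespace Pool.Agent.Run7.h843.QJ

open Pool.Agent.Y699
open Pool.Agent.Y715.Z
open Run7.h26.QI (cc3 cc3_ne cc3_dvd not_dvd_cc3 odd_mod2 GoodC GoodG sqf_cD)
open Pool.Agent.W164.RC (two2 prim_iff_dvd unit_norm unit_cases)
open Pool.Agent.H304R2.EC.A1 (prim prim_mul prim_cancel prim_one prim_norm_odd prim_ne_zero norm_def'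
  eq_one_of_prim exists_prim)
open H385 (ZI RQ im1 nrm)
open Pool.Agent.H691.GZ (ClsE GoodE)
open Run7.h135.XK (Im Cc cl)
open Pool.Agent.TH841.NF.D (Sha IsShaCoc shaCoc)

lemma one_of_unit {d : ZI} (hd : prim d) (h : IsUnit d) : d = 1 := by
  obtain ⟨u, hu⟩ := h
  exact eq_one_of_prim hd (by rw [← hu]; exact unit_norm u)

lemma nsq {c d : ZI} (hc : cc3 c) (hd : prim d) (hsq : Squarefree (c * d)) : ¬ IsSquare (c * d) := by
  intro h
  have hu := unit_of_sqf hsq h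
  have hcu := isUnit_of_mul_isUnit_left hu
  have hd1 := one_of_unit hd (isUnit_of_mul_isUnit_right hu)
  rcases hc with hc | hc | hc
  · obtain ⟨b, hb⟩ := h
    rw [hd1, mul_one, hc] at hb
    have h1 := congrArg Zsqrtd.im hb
    rw [Zsqrtd.im_mul] at h1
    have h2 : im1.im = 1 := rfl
    have h3 : b.im * b.re = b.re * b.im := mul_comm _ _
    rw [h2, h3] at h1
    omega
  · rw [hc] at hcu
    exact pi1_prime.not_isUnit hcu
  · rw [hc] at hcu
    exact pi1_prime.not_isUnit (isUnit_of_mul_isUnit_right hcu)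

lemma odd_ok {D d d' r : ZI} (hD : PS D) (he : D = d * d') (h1 : ∀ π ∈ PD d, qr π r = 1)
    (h2 : ∀ π ∈ PD d', qr π d = 1) (z : ZI) (hz : Prime z) (hzD : z ∣ D) :
    (z ∣ d → ∃ b, z ∣ r - b ^ 2) ∧ (¬ z ∣ d → ∃ b, z ∣ d - b ^ 2) := by
  have hd0 : d ≠ 0 := by
    rintro rfl
    exact hD.ne (by rw [he, zero_mul])
  have hd0' : d' ≠ 0 := by
    rintro rfl
    exact hD.ne (by rw [he, mul_zero])
  obtain ⟨ρ, hρ, hass⟩ := exists_PP hz (odd_of_dvd hzD (prim_norm_odd hD.prm))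
  have ex : ∀ a : ZI, qr ρ a = 1 → ∃ b, z ∣ a - b ^ 2 := by
    intro a ha
    unfold qr at ha
    by_cases h3 : ρ ∣ a
    · rw [if_pos h3] at ha
      exact absurd ha (by norm_num)
    · rw [if_neg h3] at ha
      by_cases h4 : ∃ b, ρ ∣ a - b ^ 2
      · obtain ⟨b, hb⟩ := h4
        exact ⟨b, hass.symm.dvd.trans hb⟩
      · rw [if_neg h4] at ha
        exact absurd ha (by norm_num)
  refine ⟨fun h => ex r (h1 ρ ((mem_PD hd0).2 ⟨hρ, hass.dvd.trans h⟩)), fun h => ex d (h2 ρ ((mem_PD hd0').2 ⟨hρ, ?_⟩))⟩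
  rw [he] at hzD
  exact hass.dvd.trans ((hz.dvd_or_dvd hzD).resolve_left h)

variable {K : Type} [Field K] [NumberField K] (e : ZI ≃+* 𝓞 K)

theorem conv_c {c D : ZI} (hc : cc3 c) (hD : PS D) (h : ¬ GoodC c D)
    (hf : Finite (Eg (K := K) e (c * D)).toAffine.Point)
    (hs : ∀ x : Sha (Eg (K := K) e (c * D)), 2 • x = 0 → x = 0) : False := by
  have hex : ∃ d d' : ZI, prim d ∧ prim d' ∧ D = d * d' ∧ (∀ π ∈ PD d, qr π (c * d') = 1) ∧
      (∀ π ∈ PD d', qr π d = 1) ∧ d ≠ 1 := by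
    by_contra hcon
    apply h
    refine ⟨hD, fun d d' h1 h2 h3 h4 h5 => ?_⟩
    by_contra h6
    exact hcon ⟨d, d', h1, h2, h3, h4, h5, h6⟩
  obtain ⟨d, d', hd, hd', he, h1, h2, hne⟩ := hex
  have hdP : PS d := hD.of_dvd hd ⟨d', he⟩
  have hdP' : PS d' := hD.of_dvd hd' ⟨d, by rw [he, mul_comm]⟩
  have hsq := sqf_cD hc hD
  have hg : c * D = d * (c * d') := by rw [he]; ring
  have hcls := cls_c hc hdP (jac_c hdP hdP' h1 h2)
  refine conv e (g := c * D) (d := d) (r := c * d') hg hsq ?_ ?_ (nsq hc hD.prm hsq)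
    (fun hu => hne (one_of_unit hd hu)) (nsq hc hd' (hsq.squarefree_of_dvd ⟨d, by rw [hg, mul_comm]⟩)) hf hs
  · intro z hz hz2 hzg
    refine odd_ok hD he h1 h2 z hz ?_
    rcases hz.dvd_or_dvd hzg with h3 | h3
    · exact absurd ((h3.trans (cc3_dvd hc)).trans pi1_two) hz2
    · exact h3
  · rcases hcls with ⟨h3, h4⟩ | ⟨h3, h4⟩
    · refine at2_unit e hg ?_ h4
      rw [h3]
      intro h5
      rcases pi1_prime.dvd_or_dvd h5 with h6 | h6
      · exact Run7.h26.QI.pi1_im1 h6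
      · exact pi1_prim hD.prm h6
    · refine at2_even e hg ?_ hdP.ne ?_ h4
      · rcases h3 with h3 | h3 <;> rw [h3]
        · left; decide
        · right; decide
      · have e3 : two2 = pi1 ^ 3 * (-im1) := by decide
        have h5 := (prim_iff_dvd d').1 hd'
        rw [e3] at h5
        exact (dvd_mul_right _ _).trans h5

theorem conv_one' {D d d' : ZI} (hD : PS D) (h5 : D.norm % 8 = 5) (hd : prim d) (hd' : prim d')
    (he : D = d * d') (h1 : ∀ π ∈ PD d, qr π d' = 1) (h2 : ∀ π ∈ PD d', qr π d = 1) (hne : d ≠ 1)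
    (hne' : d' ≠ 1) (h4 : (4 : ZI) ∣ d - 1)
    (hf : Finite (Eg (K := K) e D).toAffine.Point)
    (hs : ∀ x : Sha (Eg (K := K) e D), 2 • x = 0 → x = 0) : False := by
  have hsq := hD.sqf
  refine conv e (g := D) (d := d) (r := d') he hsq ?_ ?_ ?_
    (fun hu => hne (one_of_unit hd hu)) ?_ hf hs
  · intro z hz _ hzg
    exact odd_ok hD he h1 h2 z hz hzg
  · exact at2_unit e he (pi1_prim hD.prm) h4
  · intro h
    have h6 := one_of_unit hD.prm (unit_of_sqf hsq h)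
    rw [h6] at h5
    revert h5
    decide
  · intro h
    exact hne' (one_of_unit hd' (unit_of_sqf (hsq.squarefree_of_dvd ⟨d, by rw [he, mul_comm]⟩) h))

theorem conv_one {D : ZI} (hD : PS D) (h5 : D.norm % 8 = 5) (h : ¬ Good D)
    (hf : Finite (Eg (K := K) e D).toAffine.Point)
    (hs : ∀ x : Sha (Eg (K := K) e D), 2 • x = 0 → x = 0) : False := by
  have hex : ∃ d d' : ZI, prim d ∧ prim d' ∧ D = d * d' ∧ (∀ π ∈ PD d, qr π d' = 1) ∧
      (∀ π ∈ PD d', qr π d = 1) ∧ d ≠ 1 ∧ d' ≠ 1 := by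
    by_contra hcon
    apply h
    refine ⟨hD, h5, fun d d' h1 h2 h3 h4 h5 => ?_⟩
    by_contra h6
    rw [not_or] at h6
    exact hcon ⟨d, d', h1, h2, h3, h4, h5, h6.1, h6.2⟩
  obtain ⟨d, d', hd, hd', he, h1, h2, hne, hne'⟩ := hex
  have hdP : PS d := hD.of_dvd hd ⟨d', he⟩
  have hdP' : PS d' := hD.of_dvd hd' ⟨d, by rw [he, mul_comm]⟩
  rcases cls_one hdP hdP' he h5 with h4 | h4
  · exact conv_one' e hD h5 hd hd' he h1 h2 hne hne' h4 hf hs
  · exact conv_one' e hD h5 hd' hd (by rw [he, mul_comm]) h2 h1 hne' hne h4 hf hs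

/-- the classes -/
theorem cov_cases {g : ZI} (hsq : Squarefree g) (h4 : ¬ (4 : ℤ) ∣ g.im) :
    (∃ D, (g = D ∨ g = -D) ∧ ClsE {5, 13} D) ∨ ∃ c D, cc3 c ∧ (g = c * D ∨ g = -(c * D)) ∧ PS D := by
  have key : ∀ g' : ZI, Squarefree g' → ¬ pi1 ∣ g' → ∃ v D : ZI, (v = 1 ∨ v = im1 ∨ v = -1 ∨ v = -im1) ∧ g' = v * D ∧ PS D := by
    intro g' hg' hodd
    obtain ⟨u, v, huv, hp⟩ := exists_prim g' ((norm_odd_iff g').2 hodd)
    have hv : IsUnit v := IsUnit.of_mul_eq_one _ (by rw [mul_comm]; exact huv)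
    obtain ⟨v', hv'⟩ := hv
    have hvn : v.norm = 1 := by rw [← hv']; exact unit_norm v'
    refine ⟨v, u * g', ?_, ?_, hp, ?_⟩
    · rcases unit_cases hvn with h | h | h | h
      · exact Or.inl h
      · exact Or.inr (Or.inl h)
      · exact Or.inr (Or.inr (Or.inl (by rw [h]; decide)))
      · exact Or.inr (Or.inr (Or.inr (by rw [h]; decide)))
    · rw [← mul_assoc, mul_comm v, huv, one_mul]
    · have h6 : u * g' ∣ g' := ⟨v, by rw [mul_comm, ← mul_assoc, mul_comm v, huv, one_mul]⟩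
      exact hg'.squarefree_of_dvd h6
  by_cases h2 : pi1 ∣ g
  · right
    obtain ⟨g', rfl⟩ := h2
    have h3 : ¬ pi1 ∣ g' := by
      rintro ⟨k, rfl⟩
      exact pi1_prime.not_isUnit (hsq pi1 ⟨k, by ring⟩)
    obtain ⟨v, D, hv, rfl, hD⟩ := key g' (hsq.squarefree_of_dvd ⟨pi1, mul_comm _ _⟩) h3
    rcases hv with rfl | rfl | rfl | rfl
    · exact ⟨pi1, D, Or.inr (Or.inl rfl), Or.inl (by ring), hD⟩
    · exact ⟨im1 * pi1, D, Or.inr (Or.inr rfl), Or.inl (by ring), hD⟩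
    · exact ⟨pi1, D, Or.inr (Or.inl rfl), Or.inr (by ring), hD⟩
    · exact ⟨im1 * pi1, D, Or.inr (Or.inr rfl), Or.inr (by ring), hD⟩
  · obtain ⟨v, D, hv, rfl, hD⟩ := key g hsq h2
    rcases hv with rfl | rfl | rfl | rfl
    · exact Or.inl ⟨D, Or.inl (by ring), (Run7.h26.QI.cov_one hD (Or.inl rfl)).1 h4⟩
    · exact Or.inr ⟨im1, D, Or.inl rfl, Or.inl rfl, hD⟩
    · exact Or.inl ⟨D, Or.inr (by ring), (Run7.h26.QI.cov_one hD (Or.inr rfl)).1 h4⟩
    · exact Or.inr ⟨im1, D, Or.inl rfl, Or.inr (by ring), hD⟩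

lemma eg_neg (g : ZI) : Eg (K := K) e (-g) = Eg e g := by
  unfold Eg
  rw [map_neg, neg_sq]

/-- **the converse** -/
theorem conv_g {g : ZI} (hsq : Squarefree g) (h4 : ¬ (4 : ℤ) ∣ g.im) (h : ¬ GoodG g)
    (hf : Finite (Eg (K := K) e g).toAffine.Point)
    (hs : ∀ x : Sha (Eg (K := K) e g), 2 • x = 0 → x = 0) : False := by
  rcases cov_cases hsq h4 with ⟨D, h1, hD⟩ | ⟨c, D, hc, h1, hD⟩
  · have h5 : D.norm % 8 = 5 := by
      have h0 : ((nrm D : ℕ) : ℤ) = D.norm := GaussianInt.abs_natCast_norm D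
      have h2 := hD.2
      rw [Finset.mem_insert, Finset.mem_singleton] at h2
      rw [← h0]
      omega
    have hbad : ¬ Good D := by
      intro hG
      exact h (Or.inl ⟨D, h1, hD, hG.ker⟩)
    rcases h1 with h1 | h1
    · subst h1
      exact conv_one e hD.ps h5 hbad hf hs
    · subst h1
      rw [eg_neg] at hf hs
      exact conv_one e hD.ps h5 hbad hf hs
  · have hbad : ¬ GoodC c D := fun hG => h (Or.inr ⟨c, D, hc, h1, hG⟩)
    rcases h1 with h1 | h1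
    · subst h1
      exact conv_c e hc hD hbad hf hs
    · subst h1
      rw [eg_neg] at hf hs
      exact conv_c e hc hD hbad hf hs

end Pool.Agent.Run7.h843.QJ
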