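import Mathlib

/-!
# The field `ℚ(i)` as the fraction field of the Gaussian integers
-/

set_option autoImplicit false

open NumberField

namespace Pool.Agent.Run7.h843.QJ

lemma int_G (a : GaussianInt) : IsIntegral ℤ a := by
  refine ⟨Polynomial.X ^ 2 + (Polynomial.C (-2 * a.re) * Polynomial.X + Polynomial.C a.norm), ?_, ?_⟩
  · refine Polynomial.monic_X_pow_add ?_
    refine (Polynomial.degree_add_le _ _).trans_lt ?_
    rw [max_lt_iff]
    constructor
    · refine (Polynomial.degree_C_mul_X_le _).trans_lt ?_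
      norm_num
    · exact Polynomial.degree_C_le.trans_lt (by norm_num)
  · simp only [Polynomial.eval₂_add, Polynomial.eval₂_pow, Polynomial.eval₂_X, Polynomial.eval₂_mul,
      Polynomial.eval₂_C]
    apply Zsqrtd.ext
    · simp [sq, Zsqrtd.re_mul, Zsqrtd.norm_def]
      ring
    · simp [sq, Zsqrtd.im_mul]
      ring

section

variable (F : Type) [Field F] [Algebra GaussianInt F] [IsFractionRing GaussianInt F]

include F in
lemma char_F : CharZero F :=
  charZero_of_injective_algebraMap (IsFractionRing.injective GaussianInt F)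

lemma ii : algebraMap GaussianInt F ⟨0, 1⟩ * algebraMap GaussianInt F ⟨0, 1⟩ = -1 := by
  rw [← map_mul, ← map_one (algebraMap GaussianInt F), ← map_neg]
  exact congrArg _ (by decide)

lemma split_F (a : GaussianInt) : algebraMap GaussianInt F a = (a.re : F) +
      (a.im : F) * algebraMap GaussianInt F ⟨0, 1⟩ := by
  have e : a = (a.re : GaussianInt) + (a.im : GaussianInt) * ⟨0, 1⟩ := by
    apply Zsqrtd.ext
    · simp
    · simp
  have h1 := congrArg (algebraMap GaussianInt F) e
  rw [map_add, map_mul, map_intCast, map_intCast] at h1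
  exact h1

lemma surj_F [CharZero F] (x : F) : ∃ u v : ℚ, x = (u : F) + v * algebraMap GaussianInt F ⟨0, 1⟩ := by
  obtain ⟨a, b, hb, rfl⟩ := IsFractionRing.div_surjective (A := GaussianInt) x
  have hb0 : b ≠ 0 := nonZeroDivisors.ne_zero hb
  have hn : b.norm ≠ 0 := fun h => hb0 ((Zsqrtd.norm_eq_zero_iff (by norm_num) b).1 h)
  have hn' : ((b.norm : ℤ) : F) ≠ 0 := by exact_mod_cast hn
  have hbm : algebraMap GaussianInt F b ≠ 0 := by
    rw [Ne, map_eq_zero_iff _ (IsFractionRing.injective _ _)]
    exact hb0
  have hnb : ((b.norm : ℤ) : F) = algebraMap GaussianInt F b * algebraMap GaussianInt F (star b) := by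
    rw [← map_mul, ← Zsqrtd.norm_eq_mul_conj, map_intCast]
  have h1 := split_F F (a * star b)
  rw [map_mul] at h1
  refine ⟨((a * star b).re : ℚ) / b.norm, ((a * star b).im : ℚ) / b.norm, ?_⟩
  push_cast
  rw [div_eq_iff hbm]
  apply mul_right_cancel₀ hn'
  have h2 : (((a * star b).re : F) / b.norm + (a * star b).im / b.norm * algebraMap GaussianInt F ⟨0, 1⟩) *
      algebraMap GaussianInt F b * b.norm =
      ((a * star b).re + (a * star b).im * algebraMap GaussianInt F ⟨0, 1⟩) * algebraMap GaussianInt F b := by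
    field_simp
  rw [h2, ← h1, hnb]
  ring

lemma fin_F [CharZero F] : FiniteDimensional ℚ F := by
  let f : (Fin 2 → ℚ) →ₗ[ℚ] F :=
    { toFun := fun c => c 0 • (1 : F) + c 1 • algebraMap GaussianInt F ⟨0, 1⟩
      map_add' := fun x y => by simp only [Pi.add_apply, add_smul]; abel
      map_smul' := fun r x => by simp only [Pi.smul_apply, smul_add, smul_smul, RingHom.id_apply, smul_eq_mul] }
  refine Module.Finite.of_surjective f ?_
  intro x
  obtain ⟨u, v, hx⟩ := surj_F F x
  refine ⟨![u, v], ?_⟩
  show (![u, v] : Fin 2 → ℚ) 0 • (1 : F) + (![u, v] : Fin 2 → ℚ) 1 • algebraMap GaussianInt F ⟨0, 1⟩ = x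
  rw [hx]
  simp [Algebra.smul_def]

lemma ic_F [CharZero F] : IsIntegralClosure GaussianInt ℤ F :=
  { algebraMap_injective := IsFractionRing.injective _ _
    isIntegral_iff := by
      intro x
      constructor
      · intro h
        exact IsIntegrallyClosed.isIntegral_iff.1 h.tower_top
      · rintro ⟨y, rfl⟩
        exact (int_G y).algebraMap }

theorem nf_F : ∃ _ : NumberField F, Nonempty (GaussianInt ≃+* 𝓞 F) := by
  have hz := char_F F
  have hf := fin_F F
  have hnf : NumberField F := { to_charZero := hz, to_finiteDimensional := hf }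
  have := ic_F F
  exact ⟨hnf, ⟨(NumberField.RingOfIntegers.equiv GaussianInt).symm⟩⟩

end

/-- there is a number field whose ring of integers is `ℤ[i]` -/
theorem exists_K : ∃ (K : Type) (_ : Field K) (_ : NumberField K), Nonempty (GaussianInt ≃+* 𝓞 K) := by
  obtain ⟨h1, h2⟩ := nf_F (FractionRing GaussianInt)
  exact ⟨FractionRing GaussianInt, inferInstance, h1, h2⟩

end Pool.Agent.Run7.h843.QJ
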