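import Pool.Agent.Run7.h843.QJ.One

/-!
# The condition at `1 + i` for the torsors
-/

set_option autoImplicit false
set_option linter.unusedSectionVars false

open NumberField IsDedekindDomain WithZero

namespace Pool.Agent.Run7.h843.QJ

open Pool.Agent.Y682 (S1 S2 vv vv_coe)
open Pool.Agent.Y699
open Pool.Agent.Y715.Z
open Run7.h26.QI (cc3 odd_mod2 exists_sign prim_mod2 two_im_one)
open Pool.Agent.H304R2.EC.A1 (prim prim_mul prim_cancel prim_norm_odd prim_ne_zero)
open H385 (ZI RQ im1 nrm)

section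

variable {L : Type} [Field L] {w : Valuation L (WithZero (Multiplicative ℤ))} {j : L}

lemma odd_ne {x y : L} (hy : y ≠ 0) (h : w x ^ 2 = exp (-1 : ℤ) * w y ^ 2) : False := by
  have hwy : w y ≠ 0 := (Valuation.ne_zero_iff _).2 hy
  apply exp_sq (g := w x / w y)
  rw [div_pow, h]
  field_simp

/-- the even case -/
lemma At2.even_case (h : At2 w j) {g d d' z m : L} (hg : w g = exp (-1 : ℤ)) (hgd : g = d * d')
    (hdd : (w d = 1 ∧ w d' = exp (-1 : ℤ)) ∨ (w d = exp (-1 : ℤ) ∧ w d' = 1))
    (hz : z ≠ 0) (hm : d * z ^ 2 = m) (hS : S1 0 (-g ^ 2) m) :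
    w (d - 1) ≤ exp (-2 : ℤ) ∨ w (d' - 1) ≤ exp (-2 : ℤ) := by
  have hj0 : j ≠ 0 := by
    intro h0
    have := h.wj
    rw [h0, map_zero] at this
    exact zero_ne_one this
  have hg0 : g ≠ 0 := by
    rintro rfl
    rw [map_zero] at hg
    exact exp_ne_zero hg.symm
  have hd0 : d ≠ 0 := by
    rintro rfl
    exact hg0 (by rw [hgd, zero_mul])
  have hd'0 : d' ≠ 0 := by
    rintro rfl
    exact hg0 (by rw [hgd, mul_zero])
  have hm0 : m ≠ 0 := by
    rw [← hm]; exact mul_ne_zero hd0 (pow_ne_zero 2 hz)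
  have hz0 : w z ≠ 0 := (Valuation.ne_zero_iff _).2 hz
  have hwm' : w m = w d * w z ^ 2 := by rw [← hm, map_mul, map_pow]
  rcases hdd with ⟨hd, hd'⟩ | ⟨hd, hd'⟩
  · -- `d` odd
    left
    have hwm : w m = w z ^ 2 := by rw [hwm', hd, one_mul]
    have hsqc : ∀ s : L, d = s ^ 2 → w (d - 1) ≤ exp (-2 : ℤ) := by
      intro s hs
      have h1 : w s = 1 := unit_of_sq (by rw [← map_pow, ← hs]; exact hd)
      rw [hs]
      exact h.sq2 h1
    have hrr : ∀ r s : L, w r < 1 → d * s ^ 2 = 1 - r ^ 2 → w (d - 1) ≤ exp (-2 : ℤ) := by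
      intro r s hr hs
      have hr2 : w r ^ 2 ≤ exp (-2 : ℤ) := even_sq (pow_lt_one₀ zero_le hr two_ne_zero)
      have h1 : w (1 - r ^ 2) = 1 := by
        apply Valuation.map_one_sub_of_lt
        rw [map_pow]
        exact pow_lt_one₀ zero_le hr two_ne_zero
      have h2 : w s = 1 := by
        apply unit_of_sq
        have h3 := congrArg w hs
        rw [map_mul, hd, one_mul, map_pow, h1] at h3
        exact h3
      apply h.of_sq hd h2
      rw [hs]
      have e : 1 - r ^ 2 - 1 = -(r ^ 2) := by ring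
      rw [e, Valuation.map_neg, map_pow]
      exact hr2
    rcases hS with h1 | h1 | ⟨-, y, hy⟩
    · apply hsqc (1 / z)
      rw [div_pow, one_pow, eq_div_iff (pow_ne_zero 2 hz), hm, h1]
    · apply hsqc (j * g / z)
      rw [div_pow, mul_pow, h.jj, eq_div_iff (pow_ne_zero 2 hz), hm, h1]
      ring
    have hy' : y ^ 2 = m * (m ^ 2 - g ^ 2) := by rw [hy]; ring
    rcases lt_trichotomy (w m) (w g) with h1 | h1 | h1
    · apply hrr (m / g) (y / (j * g * (d * z)))
      · rw [map_div₀, div_lt_one₀ (by rw [hg]; exact exp_pos)]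
        exact h1
      · rw [div_pow, div_pow, mul_pow, mul_pow, mul_pow, h.jj, hy']
        rw [← hm]
        field_simp
        ring
    · exfalso
      rw [hwm, hg] at h1
      exact exp_sq h1
    · apply hrr (g / m) (y / (m * (d * z)))
      · rw [map_div₀, div_lt_one₀ (zero_lt_iff.2 ((Valuation.ne_zero_iff _).2 hm0))]
        exact h1
      · rw [div_pow, div_pow, mul_pow, mul_pow, hy']
        rw [← hm]
        field_simp
  · -- `d` even
    right
    have hwm : w m = exp (-1 : ℤ) * w z ^ 2 := by rw [hwm', hd]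
    have hsqc' : ∀ s : L, d' = s ^ 2 → w (d' - 1) ≤ exp (-2 : ℤ) := by
      intro s hs
      have h1 : w s = 1 := unit_of_sq (by rw [← map_pow, ← hs]; exact hd')
      rw [hs]
      exact h.sq2 h1
    rcases hS with h1 | h1 | ⟨-, y, hy⟩
    · exfalso
      rw [h1, map_one] at hwm
      apply odd_ne (w := w) (x := (1 : L)) hz
      rw [map_one, one_pow]; exact hwm
    · exfalso
      apply odd_ne (w := w) (x := g) hz
      rw [← hwm, h1, Valuation.map_neg, map_pow]
    have hy' : y ^ 2 = m * (m ^ 2 - g ^ 2) := by rw [hy]; ring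
    by_cases hy0 : y = 0
    · rw [hy0, zero_pow two_ne_zero] at hy'
      have h3 : m ^ 2 - g ^ 2 = 0 := (mul_eq_zero.1 hy'.symm).resolve_left hm0
      have h4 : (m - g) * (m + g) = 0 := by linear_combination h3
      rcases mul_eq_zero.1 h4 with h5 | h5
      · apply hsqc' z
        apply mul_left_cancel₀ hd0
        linear_combination -hgd - hm - h5
      · apply hsqc' (j * z)
        apply mul_left_cancel₀ hd0
        linear_combination -hgd + hm + h5 - d * z ^ 2 * h.jj
    have h2e := congrArg w hy'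
    rw [map_pow, map_mul] at h2e
    rcases lt_trichotomy (w m) (w g) with h1 | h1 | h1
    · exfalso
      have h3 : w (m ^ 2 - g ^ 2) = w g ^ 2 := by
        rw [Valuation.map_sub_eq_of_lt_right, map_pow]
        rw [map_pow, map_pow]
        exact pow_lt_pow_left₀ h1 zero_le two_ne_zero
      rw [h3, hwm] at h2e
      apply odd_ne (w := w) (x := y) (mul_ne_zero hz hg0)
      rw [h2e, map_mul, mul_pow, mul_assoc]
    · set t : L := m / g with ht
      have hmt : m = g * t := by rw [ht]; field_simp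
      have hwt : w t = 1 := by rw [ht, map_div₀, h1]; exact div_self (by rw [hg]; exact exp_ne_zero)
      have hwz : w z = 1 := by
        apply unit_of_sq
        rw [h1, hg] at hwm
        have h3 : exp (-1 : ℤ) * w z ^ 2 = exp (-1 : ℤ) * 1 := by rw [mul_one]; exact hwm.symm
        exact mul_left_cancel₀ exp_ne_zero h3
      by_cases h2 : w (t - 1) ≤ exp (-2 : ℤ)
      · have h5 : t * d' = z ^ 2 := by
          apply mul_left_cancel₀ hd0
          rw [hm, hmt, hgd]; ring
        have e : d' - 1 = (z ^ 2 - 1) - d' * (t - 1) := by rw [← h5]; ring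
        rw [e]
        refine wle' (h.sq2 hwz) ?_
        rw [map_mul, hd', one_mul]
        exact h2
      · exfalso
        have h0 : exp (0 : ℤ) = (1 : WithZero (Multiplicative ℤ)) := exp_zero
        have h3 : w (t - 1) ≤ exp (-1 : ℤ) := le_exp w (n := 0) (by rw [h0]; exact h.res t hwt)
        have h4 : w (t - 1) = exp (-1 : ℤ) := by
          refine le_antisymm h3 ?_
          by_contra h5
          exact h2 (le_exp w (n := -1) (not_le.1 h5))
        have h5 : w (t + 1) = exp (-1 : ℤ) := by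
          have e : t + 1 = (t - 1) + 2 := by ring
          rw [e, Valuation.map_add_eq_of_lt_left, h4]
          rw [h4, h.two, exp_lt_exp]; norm_num
        have h6 : y ^ 2 = g ^ 3 * (t * ((t - 1) * (t + 1))) := by rw [hy', hmt]; ring
        have h7 := congrArg w h6
        rw [map_pow, map_mul, map_mul, map_mul, hwt, h4, h5, one_mul, map_pow, hg] at h7
        apply exp_sq (g := w y * exp (2 : ℤ))
        rw [mul_pow, h7, sq, pow_succ, sq, ← exp_add, ← exp_add, ← exp_add, ← exp_add, ← exp_add]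
        · norm_num
    · exfalso
      have h3 : w (m ^ 2 - g ^ 2) = w m ^ 2 := by
        rw [Valuation.map_sub_eq_of_lt_left, map_pow]
        rw [map_pow, map_pow]
        exact pow_lt_pow_left₀ h1 zero_le two_ne_zero
      rw [h3] at h2e
      apply odd_ne (w := w) (x := y) (mul_ne_zero hz hm0)
      rw [h2e, map_mul, mul_pow]
      nth_rewrite 1 [hwm]
      rw [mul_assoc]

end

lemma par_c {c : ZI} (hc : cc3 c) : c = im1 ∨ ∃ c1, c = pi1 * c1 ∧ ¬ pi1 ∣ c1 := by
  rcases hc with h1 | h1 | h1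
  · exact Or.inl h1
  · exact Or.inr ⟨1, by rw [h1, mul_one], Run7.h26.QI.one_not⟩
  · exact Or.inr ⟨im1, by rw [h1, mul_comm], Run7.h26.QI.pi1_im1⟩

/-- **the condition at `1 + i`** -/
theorem t_PAR2 : Run7.h26.QJ.S_PAR2 := by
  intro K _ _ e c D d d' hc hD hdd z m hz hzm hS
  have h2 := at2 e
  have hD1 : ¬ pi1 ∣ D := pi1_prim hD.prm
  have hfin : (vv (plc e pi1_prime) (ph e pi1_prime (em0 e d) - 1) ≤ exp (-2 : ℤ) ∨
      vv (plc e pi1_prime) (ph e pi1_prime (em0 e d') - 1) ≤ exp (-2 : ℤ)) →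
      ((2 : ZI) ∣ d - 1 ∨ (2 : ZI) ∣ d' - 1) := by
    rintro (h3 | h3)
    · left
      apply two_dvd e
      rw [map_sub, map_sub, map_one, map_one]
      exact h3
    · right
      apply two_dvd e
      rw [map_sub, map_sub, map_one, map_one]
      exact h3
  apply hfin
  have hS' : S1 0 (-(ph e pi1_prime (em0 e (c * D))) ^ 2) m := by
    have h5 : -(ph e pi1_prime (em0 e (c * D))) ^ 2 =
        algebraMap K ((plc e pi1_prime).adicCompletion K) (-(em0 e (c * D)) ^ 2) := by
      rw [map_neg, map_pow]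
    rw [h5]
    exact hS
  have hgdd : ph e pi1_prime (em0 e (c * D)) = ph e pi1_prime (em0 e d) * ph e pi1_prime (em0 e d') := by
    rw [← map_mul, ← map_mul, ← hdd]
  have hw1 : ∀ a : ZI, ¬ pi1 ∣ a → vv (plc e pi1_prime) (ph e pi1_prime (em0 e a)) = 1 := by
    intro a ha
    rw [vv_coe, val_one e pi1_prime ha]
  have hwp : ∀ a : ZI, ¬ pi1 ∣ a → vv (plc e pi1_prime) (ph e pi1_prime (em0 e (pi1 * a))) = exp (-1 : ℤ) := by
    intro a ha
    rw [vv_coe, map_mul, map_mul, val_z e pi1_prime, val_one e pi1_prime ha, mul_one]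
  rcases par_c hc with h1 | ⟨c1, hc1, hc1u⟩
  · have hg1 : ¬ pi1 ∣ c * D := by
      rw [h1]
      exact Run7.h26.QI.not_dvd_mul Run7.h26.QI.pi1_im1 hD1
    have hd1 : ¬ pi1 ∣ d := fun h' => hg1 (by rw [hdd]; exact h'.mul_right _)
    refine h2.unit_case (hw1 _ hg1) hgdd (hw1 _ hd1) hz hzm hS' ?_
    intro s hs hs4
    obtain ⟨r, hr⟩ := prim_mod2 hD.prm
    rcases h2.sq4 hs with h6 | h6
    · have h7 : (4 : ZI) ∣ c * D - 1 := by
        apply four_dvd e
        rw [map_sub, map_sub, map_one, map_one]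
        have : ph e pi1_prime (em0 e (c * D)) - 1 = (s ^ 2 - 1) - (s ^ 2 - ph e pi1_prime (em0 e (c * D))) := by
          ring
        rw [this]
        exact wle' h6 hs4
      obtain ⟨q, hq⟩ := h7
      apply two_im_one
      refine ⟨2 * q - im1 * r, ?_⟩
      rw [h1] at hq
      linear_combination hq - im1 * hr
    · have h7 : (4 : ZI) ∣ c * D - (-1) := by
        apply four_dvd e
        rw [map_sub, map_sub, map_neg, map_neg, map_one, map_one]
        have : ph e pi1_prime (em0 e (c * D)) - (-1) =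
            (s ^ 2 + 1) - (s ^ 2 - ph e pi1_prime (em0 e (c * D))) := by ring
        rw [this]
        exact wle' h6 hs4
      obtain ⟨q, hq⟩ := h7
      apply two_im_one
      refine ⟨2 * q - im1 * r - 1, ?_⟩
      rw [h1] at hq
      linear_combination hq - im1 * hr
  · have hn : ¬ pi1 ∣ c1 * D := Run7.h26.QI.not_dvd_mul hc1u hD1
    have hcD : c * D = pi1 * (c1 * D) := by rw [hc1]; ring
    have hwg : vv (plc e pi1_prime) (ph e pi1_prime (em0 e (c * D))) = exp (-1 : ℤ) := by
      rw [hcD]; exact hwp _ hn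
    have hdv : pi1 ∣ d * d' := by rw [← hdd, hcD]; exact dvd_mul_right _ _
    refine h2.even_case hwg hgdd ?_ hz hzm hS'
    rcases pi1_prime.dvd_or_dvd hdv with h3 | h3
    · right
      obtain ⟨s, hs⟩ := h3
      have h4 : c1 * D = s * d' := by
        apply mul_left_cancel₀ pi1_prime.ne_zero
        rw [← hcD, hdd, hs]; ring
      have hs1 : ¬ pi1 ∣ s := fun h' => hn (by rw [h4]; exact h'.mul_right _)
      have hd' : ¬ pi1 ∣ d' := fun h' => hn (by rw [h4]; exact h'.mul_left _)
      refine ⟨?_, hw1 _ hd'⟩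
      rw [hs]; exact hwp _ hs1
    · left
      obtain ⟨s, hs⟩ := h3
      have h4 : c1 * D = d * s := by
        apply mul_left_cancel₀ pi1_prime.ne_zero
        rw [← hcD, hdd, hs]; ring
      have hs1 : ¬ pi1 ∣ s := fun h' => hn (by rw [h4]; exact h'.mul_left _)
      have hd' : ¬ pi1 ∣ d := fun h' => hn (by rw [h4]; exact h'.mul_right _)
      refine ⟨hw1 _ hd', ?_⟩
      rw [hs]; exact hwp _ hs1

/-- the Selmer group and the 2-part of Sha, unconditionally -/
theorem t_SEL' : Run7.h26.QJ.S_SEL := t_SEL t_PAR2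

theorem t_SHA' : Run7.h26.QJ.S_SHA := t_SHA t_PAR2

end Pool.Agent.Run7.h843.QJ
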