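import Mathlib

/-!
# The classes of the points of `y² = x³ - g² x` with finitely many points over a field with `i`

If the set of points is finite and `g` is not a square, then the abscissa of a point is a square or `g` times a
square: a counting argument with the maps `x ↦ (x² - g²) / (2 i x)` and `x ↦ g (x + g) / (x - g)`.
-/

set_option autoImplicit false

namespace Pool.Agent.Run7.h843.QJ

variable {K : Type} [Field K]

/-- the abscissas of the points with `y ≠ 0` -/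
def Ab (g : K) : Set K := {x | ∃ y : K, y ≠ 0 ∧ y ^ 2 = x * (x ^ 2 - g ^ 2)}

section

variable {g j : K}

/-- the isogeny `1 + i` -/
noncomputable def ph1 (g j x : K) : K := (x ^ 2 - g ^ 2) / (2 * j * x)

/-- the translation -/
noncomputable def ta1 (g x : K) : K := g * (x + g) / (x - g)

lemma ab_ne {x : K} (h : x ∈ Ab g) : x ≠ 0 ∧ x - g ≠ 0 ∧ x + g ≠ 0 := by
  obtain ⟨y, hy, h1⟩ := h
  have h2 : y ^ 2 ≠ 0 := pow_ne_zero 2 hy
  refine ⟨?_, ?_, ?_⟩
  · rintro rfl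
    apply h2; rw [h1]; ring
  · intro h3
    apply h2; rw [h1]
    linear_combination (x * (x + g)) * h3
  · intro h3
    apply h2; rw [h1]
    linear_combination (x * (x - g)) * h3

lemma x2g2 (hj : j ^ 2 = -1) (h2 : (2 : K) ≠ 0) (hg0 : g ≠ 0) (hg : ¬ IsSquare g) {x : K}
    (h : x ∈ Ab g) : x ^ 2 + g ^ 2 ≠ 0 := by
  intro h0
  obtain ⟨y, hy, h1⟩ := h
  have hj0 : j ≠ 0 := by
    rintro rfl
    rw [zero_pow two_ne_zero] at hj
    exact one_ne_zero (by linear_combination hj : (1 : K) = 0)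
  have h1j : (1 + j) ^ 2 = 2 * j := by linear_combination hj
  have h1j0 : 1 + j ≠ 0 := by
    intro h3
    rw [h3, zero_pow two_ne_zero] at h1j
    exact mul_ne_zero h2 hj0 h1j.symm
  have h3 : (x - j * g) * (x + j * g) = 0 := by linear_combination h0 - g ^ 2 * hj
  apply hg
  rcases mul_eq_zero.1 h3 with h4 | h4
  · -- `y² = - 2 j g³`
    refine ⟨y / (j * (1 + j) * g), ?_⟩
    have hx : x = j * g := by linear_combination h4
    have h5 : y ^ 2 = (j * (1 + j) * g) ^ 2 * g := by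
      rw [h1, hx]
      linear_combination (-(j ^ 2) * g ^ 3) * h1j - (j * g ^ 3) * hj
    rw [← sq, div_pow, h5]
    field_simp
  · refine ⟨y / ((1 + j) * g), ?_⟩
    have hx : x = -(j * g) := by linear_combination h4
    have h5 : y ^ 2 = ((1 + j) * g) ^ 2 * g := by
      rw [h1, hx]
      linear_combination (-(g ^ 3)) * h1j - (j * g ^ 3) * hj
    rw [← sq, div_pow, h5]
    field_simp

lemma ph1_mem (hj : j ^ 2 = -1) (h2 : (2 : K) ≠ 0) (hg0 : g ≠ 0) (hg : ¬ IsSquare g) {x : K}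
    (h : x ∈ Ab g) : ph1 g j x ∈ Ab g ∧ IsSquare (ph1 g j x) := by
  have hx2 := x2g2 hj h2 hg0 hg h
  obtain ⟨hx, hm, hp⟩ := ab_ne h
  obtain ⟨y, hy, h1⟩ := h
  have hj0 : j ≠ 0 := by
    rintro rfl
    rw [zero_pow two_ne_zero] at hj
    exact one_ne_zero (by linear_combination hj : (1 : K) = 0)
  have h1j : (1 + j) ^ 2 = 2 * j := by linear_combination hj
  have h1j0 : 1 + j ≠ 0 := by
    intro h3
    rw [h3, zero_pow two_ne_zero] at h1j
    exact mul_ne_zero h2 hj0 h1j.symm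
  have e1 : ph1 g j x = (y / ((1 + j) * x)) ^ 2 := by
    unfold ph1
    rw [div_pow, mul_pow, h1j, h1]
    field_simp
  refine ⟨⟨y / ((1 + j) * x) * ((x ^ 2 + g ^ 2) / (2 * j * x)), ?_, ?_⟩, ?_⟩
  · exact mul_ne_zero (div_ne_zero hy (mul_ne_zero h1j0 hx))
      (div_ne_zero hx2 (mul_ne_zero (mul_ne_zero h2 hj0) hx))
  · rw [mul_pow, ← e1]
    congr 1
    unfold ph1
    field_simp
    linear_combination (4 * x ^ 2 * g ^ 2) * hj
  · rw [e1]
    exact ⟨_, sq _⟩

lemma ph1_fib (h2 : (2 : K) ≠ 0) (hj0 : j ≠ 0) {x x' : K} (hx : x ∈ Ab g) (hx' : x' ∈ Ab g)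
    (h : ph1 g j x = ph1 g j x') : x' = x ∨ x' = -g ^ 2 / x := by
  obtain ⟨h0, -, -⟩ := ab_ne hx
  obtain ⟨h0', -, -⟩ := ab_ne hx'
  unfold ph1 at h
  rw [div_eq_div_iff (mul_ne_zero (mul_ne_zero h2 hj0) h0) (mul_ne_zero (mul_ne_zero h2 hj0) h0')] at h
  have h3 : (2 * j) * ((x' - x) * (x' * x + g ^ 2)) = 0 := by linear_combination -h
  rcases mul_eq_zero.1 ((mul_eq_zero.1 h3).resolve_left (mul_ne_zero h2 hj0)) with h4 | h4
  · left; linear_combination h4
  · right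
    rw [eq_div_iff h0]
    linear_combination h4

lemma ta1_mem (h2 : (2 : K) ≠ 0) (hg0 : g ≠ 0) {x : K} (h : x ∈ Ab g) : ta1 g x ∈ Ab g ∧
    (IsSquare x → ∃ s, s ≠ 0 ∧ ta1 g x = g * s ^ 2) := by
  obtain ⟨hx, hm, hp⟩ := ab_ne h
  obtain ⟨y, hy, h1⟩ := h
  have hy2 : y ^ 2 = x * ((x - g) * (x + g)) := by rw [h1]; ring
  refine ⟨⟨2 * g ^ 2 * y / (x - g) ^ 2, ?_, ?_⟩, ?_⟩
  · exact div_ne_zero (mul_ne_zero (mul_ne_zero h2 (pow_ne_zero 2 hg0)) hy) (pow_ne_zero 2 hm)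
  · rw [div_pow, mul_pow, hy2]
    unfold ta1
    field_simp
    ring
  · rintro ⟨r, hr⟩
    have hr0 : r ≠ 0 := by
      rintro rfl
      exact hx (by rw [hr, mul_zero])
    refine ⟨y / (r * (x - g)), div_ne_zero hy (mul_ne_zero hr0 hm), ?_⟩
    have hr2 : r ^ 2 = x := by rw [hr]; ring
    rw [div_pow, hy2, mul_pow, hr2]
    unfold ta1
    field_simp

lemma ta1_inj (h2 : (2 : K) ≠ 0) (hg0 : g ≠ 0) {x x' : K} (hx : x ∈ Ab g) (hx' : x' ∈ Ab g)
    (h : ta1 g x = ta1 g x') : x = x' := by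
  obtain ⟨-, hm, -⟩ := ab_ne hx
  obtain ⟨-, hm', -⟩ := ab_ne hx'
  unfold ta1 at h
  rw [div_eq_div_iff hm hm'] at h
  have h3 : (2 * g ^ 2) * (x - x') = 0 := by linear_combination -h
  have := (mul_eq_zero.1 h3).resolve_left (mul_ne_zero h2 (pow_ne_zero 2 hg0))
  linear_combination this

/-- **the classes of the points** -/
theorem classes (hj : j ^ 2 = -1) (h2 : (2 : K) ≠ 0) (hg0 : g ≠ 0) (hg : ¬ IsSquare g)
    (hf : (Ab g).Finite) {x : K} (hx : x ∈ Ab g) : IsSquare x ∨ ∃ s, s ≠ 0 ∧ x = g * s ^ 2 := by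
  classical
  have hj0 : j ≠ 0 := by
    rintro rfl
    rw [zero_pow two_ne_zero] at hj
    exact one_ne_zero (by linear_combination hj : (1 : K) = 0)
  set Y : Finset K := hf.toFinset with hY
  have hmem : ∀ z, z ∈ Y ↔ z ∈ Ab g := fun z => Set.Finite.mem_toFinset hf
  set P : Finset K := Y.image (ph1 g j) with hP
  set T : Finset K := P.image (ta1 g) with hT
  have hPY : P ⊆ Y := by
    intro z hz
    obtain ⟨x, hx, rfl⟩ := Finset.mem_image.1 hz
    exact (hmem _).2 (ph1_mem hj h2 hg0 hg ((hmem _).1 hx)).1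
  have hTY : T ⊆ Y := by
    intro z hz
    obtain ⟨x, hx, rfl⟩ := Finset.mem_image.1 hz
    exact (hmem _).2 (ta1_mem h2 hg0 ((hmem _).1 (hPY hx))).1
  have hPs : ∀ z ∈ P, IsSquare z := by
    intro z hz
    obtain ⟨x, hx, rfl⟩ := Finset.mem_image.1 hz
    exact (ph1_mem hj h2 hg0 hg ((hmem _).1 hx)).2
  have hTs : ∀ z ∈ T, ∃ s, s ≠ 0 ∧ z = g * s ^ 2 := by
    intro z hz
    obtain ⟨x, hx, rfl⟩ := Finset.mem_image.1 hz
    exact (ta1_mem h2 hg0 ((hmem _).1 (hPY hx))).2 (hPs x hx)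
  have hdis : Disjoint P T := by
    rw [Finset.disjoint_left]
    intro z h3 h4
    obtain ⟨r, hr⟩ := hPs z h3
    obtain ⟨s, hs, h5⟩ := hTs z h4
    apply hg
    refine ⟨r / s, ?_⟩
    rw [div_mul_div_comm, ← hr, h5]
    field_simp
  have hcT : T.card = P.card := Finset.card_image_of_injOn (fun a ha b hb hab =>
    ta1_inj h2 hg0 ((hmem _).1 (hPY ha)) ((hmem _).1 (hPY hb)) hab)
  have hcY : Y.card ≤ 2 * P.card := by
    refine Finset.card_le_mul_card_image Y 2 ?_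
    intro z hz
    obtain ⟨x, hx, rfl⟩ := Finset.mem_image.1 hz
    refine (Finset.card_le_card (t := {x, -g ^ 2 / x}) ?_).trans Finset.card_le_two
    intro x' hx'
    obtain ⟨h3, h4⟩ := Finset.mem_filter.1 hx'
    rw [Finset.mem_insert, Finset.mem_singleton]
    exact ph1_fib h2 hj0 ((hmem _).1 hx) ((hmem _).1 h3) h4.symm
  have hU : P ∪ T = Y := by
    apply Finset.eq_of_subset_of_card_le (Finset.union_subset hPY hTY)
    rw [Finset.card_union_of_disjoint hdis, hcT]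
    omega
  have h3 := (hmem x).2 hx
  rw [← hU] at h3
  rcases Finset.mem_union.1 h3 with h4 | h4
  · exact Or.inl (hPs x h4)
  · exact Or.inr (hTs x h4)

/-- **from the global class** -/
theorem glob (hj : j ^ 2 = -1) (h2 : (2 : K) ≠ 0) (hg0 : g ≠ 0) (hg : ¬ IsSquare g)
    (hf : (Ab g).Finite) {d : K} (hd : d ≠ 0) {x u v w : K} (h0 : x = u ^ 2) (h1 : x - g = d * v ^ 2)
    (h3 : x + g = d * w ^ 2) : IsSquare d ∨ IsSquare (g * d) := by
  have hj0 : j ≠ 0 := by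
    rintro rfl
    rw [zero_pow two_ne_zero] at hj
    exact one_ne_zero (by linear_combination hj : (1 : K) = 0)
  have h1j : (1 + j) ^ 2 = 2 * j := by linear_combination hj
  have h1j0 : 1 + j ≠ 0 := by
    intro h3
    rw [h3, zero_pow two_ne_zero] at h1j
    exact mul_ne_zero h2 hj0 h1j.symm
  by_cases hu : u = 0
  · right
    refine ⟨j * d * v, ?_⟩
    have hx : x = 0 := by rw [h0, hu]; ring
    rw [hx] at h1
    linear_combination (-d) * h1 - d ^ 2 * v ^ 2 * hj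
  by_cases hv : v = 0
  · exfalso
    apply hg
    refine ⟨u, ?_⟩
    rw [hv] at h1
    linear_combination h0 - h1
  set m : K := j * (u ^ 2 + d * v * w) with hm
  have hm1 : m * (j * (u ^ 2 - d * v * w)) = -g ^ 2 := by
    rw [hm]
    have e : (d * v ^ 2) * (d * w ^ 2) = u ^ 4 - g ^ 2 := by
      rw [← h1, ← h3, h0]; ring
    linear_combination (u ^ 4 - d ^ 2 * v ^ 2 * w ^ 2) * hj + e
  have hm0 : m ≠ 0 := by
    intro h4
    rw [h4, zero_mul] at hm1
    exact pow_ne_zero 2 hg0 (by linear_combination hm1)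
  have hq : m ^ 2 - 2 * j * u ^ 2 * m - g ^ 2 = 0 := by
    have e : j * (u ^ 2 - d * v * w) = 2 * j * u ^ 2 - m := by rw [hm]; ring
    rw [e] at hm1
    linear_combination -hm1
  have hmY : m ∈ Ab g := by
    refine ⟨(1 + j) * m * u, mul_ne_zero (mul_ne_zero h1j0 hm0) hu, ?_⟩
    rw [mul_pow, mul_pow, h1j]
    linear_combination (-m) * hq
  have hmd : m * d = ((m - j * g) / ((1 + j) * v)) ^ 2 := by
    rw [div_pow, mul_pow, h1j, eq_div_iff (mul_ne_zero (mul_ne_zero h2 hj0) (pow_ne_zero 2 hv))]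
    have e : d * v ^ 2 = u ^ 2 - g := by rw [← h1, h0]
    linear_combination (2 * j * m) * e - hq - g ^ 2 * hj
  rcases classes hj h2 hg0 hg hf hmY with ⟨r, hr⟩ | ⟨s, hs, hr⟩
  · left
    have hr0 : r ≠ 0 := by
      rintro rfl
      exact hm0 (by rw [hr, mul_zero])
    refine ⟨(m - j * g) / ((1 + j) * v) / r, ?_⟩
    rw [← sq, div_pow, ← hmd, hr]
    field_simp
  · right
    refine ⟨(m - j * g) / ((1 + j) * v) / s, ?_⟩
    rw [← sq, div_pow, ← hmd, hr]
    field_simp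

/-- **from the torsor to the pair** -/
theorem of_torsor (hj : j ^ 2 = -1) (h2 : (2 : K) ≠ 0) {d z m y : K} (hm0 : m ≠ 0)
    (hm : d * z ^ 2 = m) (hy : y ^ 2 = m * (m ^ 2 - g ^ 2)) :
    ∃ x u v w : K, x = u ^ 2 ∧ x - g = d * v ^ 2 ∧ x + g = d * w ^ 2 := by
  have hj0 : j ≠ 0 := by
    rintro rfl
    rw [zero_pow two_ne_zero] at hj
    exact one_ne_zero (by linear_combination hj : (1 : K) = 0)
  have h1j : (1 + j) ^ 2 = 2 * j := by linear_combination hj
  have h1j0 : 1 + j ≠ 0 := by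
    intro h3
    rw [h3, zero_pow two_ne_zero] at h1j
    exact mul_ne_zero h2 hj0 h1j.symm
  refine ⟨(y / ((1 + j) * m)) ^ 2, y / ((1 + j) * m), z * (m - j * g) / ((1 + j) * m),
    z * (m + j * g) / ((1 + j) * m), rfl, ?_, ?_⟩
  · rw [div_pow, div_pow, mul_pow, mul_pow, h1j, hy]
    have e : d * (z ^ 2 * (m - j * g) ^ 2 / (2 * j * m ^ 2)) = m * (m - j * g) ^ 2 / (2 * j * m ^ 2) := by
      rw [← hm]; ring
    rw [e]
    field_simp
    linear_combination (-(g ^ 2)) * hj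
  · rw [div_pow, div_pow, mul_pow, mul_pow, h1j, hy]
    have e : d * (z ^ 2 * (m + j * g) ^ 2 / (2 * j * m ^ 2)) = m * (m + j * g) ^ 2 / (2 * j * m ^ 2) := by
      rw [← hm]; ring
    rw [e]
    field_simp
    linear_combination (-(g ^ 2)) * hj

end

end Pool.Agent.Run7.h843.QJ
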