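import Pool.Agent.Run7.h843.QJ.CvL
import Pool.Agent.Run7.h374.XK.LTA
import Pool.Agent.Run7.h135.XK.LTB
import Pool.Agent.Run7.h376.XK.LTG
import Pool.Agent.Run7.h376.XK.CAD
import Pool.Agent.Run7.h289.XK.Bas

/-!
# The converse: a violation of the criterion gives a point of infinite order or an element of order two of Sha
-/

set_option autoImplicit false
set_option linter.unusedSectionVars false

open NumberField IsDedekindDomain WithZero

namespace Pool.Agent.Run7.h843.QJ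

open Pool.Agent.Y682 (S1 S2 vv vv_coe)
open Pool.Agent.Y699
open Pool.Agent.Y715.Z
open Run7.h26.QI (cc3 cc3_ne not_dvd_cc3 odd_mod2)
open Pool.Agent.H304R2.EC.A1 (prim prim_mul prim_cancel prim_one prim_norm_odd prim_ne_zero norm_def'
  eq_one_of_prim)
open H385 (ZI RQ im1 nrm)
open Run7.h135.XK (Im Cc cl)
open Pool.Agent.TH841.SH.D (Pt act Gal Coch IsCoc IsCob LocTriv cob)
open Pool.Agent.TH841.NF.D (Sha IsShaCoc shaCoc)
open Pool.Agent.TH841.SH (IsR)

variable {K : Type} [Field K] [NumberField K] (e : ZI ≃+* 𝓞 K)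

/-- the curve -/
noncomputable def Eg (g : ZI) : WeierstrassCurve K := ⟨0, 0, 0, -(em0 e g) ^ 2, 0⟩

lemma isR_g (g : ZI) : IsR (Eg e g) 0 (em0 e g) (-(em0 e g)) := by
  refine ⟨rfl, ?_, rfl, ?_, ?_⟩
  · show (0 : K) = _
    ring
  · show -(em0 e g) ^ 2 = _
    ring
  · show (0 : K) = _
    ring

include e in
/-- the infinite places are complex -/
theorem inf_sq (v : InfinitePlace K) (z : v.Completion) : IsSquare z := by
  have hc : v.IsComplex := by
    rw [← InfinitePlace.not_isReal_iff_isComplex]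
    intro hr
    obtain ⟨φ, -⟩ : ∃ φ : K →+* ℝ, True := ⟨InfinitePlace.embedding_of_isReal hr, trivial⟩
    have h1 : (φ (em0 e im1)) ^ 2 = -1 := by
      rw [← map_pow, Pool.Agent.Y715.Z.im1_sq, map_neg, map_one]
    nlinarith [sq_nonneg (φ (em0 e im1))]
  obtain ⟨w, hw⟩ := IsAlgClosed.exists_pow_nat_eq
    (InfinitePlace.Completion.ringEquivComplexOfIsComplex hc z) (n := 2) (by norm_num)
  refine ⟨(InfinitePlace.Completion.ringEquivComplexOfIsComplex hc).symm w, ?_⟩
  rw [← map_mul, ← pow_two, hw, RingEquiv.symm_apply_apply]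

/-- **the class of `d` is locally trivial** -/
theorem sha_d {g d r : ZI} (hg : g = d * r) (hsq : Squarefree g)
    (hodd : ∀ z, Prime z → ¬ z ∣ 2 → z ∣ g →
      (z ∣ d → ∃ b, z ∣ r - b ^ 2) ∧ (¬ z ∣ d → ∃ b, z ∣ d - b ^ 2))
    (h2 : Im ((plc e pi1_prime).adicCompletion K) 0 (ph e pi1_prime (em0 e g))
      (-(ph e pi1_prime (em0 e g))) 1 (ph e pi1_prime (em0 e d))) :
    IsShaCoc (Eg e g) (Cc (Eg e g) 0 (em0 e g) 1 (em0 e d)) := by
  have hg0 : g ≠ 0 := hsq.ne_zero
  have hd0 : d ≠ 0 := by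
    rintro rfl
    exact hg0 (by rw [hg, zero_mul])
  have hG : em0 e g ≠ 0 := em0_ne e hg0
  have hD : em0 e d ≠ 0 := em0_ne e hd0
  have n1 : (0 : K) ≠ em0 e g := hG.symm
  have n2 : (0 : K) ≠ -(em0 e g) := (neg_ne_zero.2 hG).symm
  have n3 : em0 e g ≠ -(em0 e g) := by
    intro h
    have h3 : 2 * em0 e g = 0 := by linear_combination h
    exact (mul_ne_zero two_ne_zero hG) h3
  have base : ∀ (L : Type) [Field L] [Algebra K L],
      Im L 0 (algebraMap K L (em0 e g)) (-(algebraMap K L (em0 e g))) 1 (algebraMap K L (em0 e d)) →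
        LocTriv (Eg e g) L (Cc (Eg e g) 0 (em0 e g) 1 (em0 e d)) := by
    intro L _ _ h
    apply Pool.Agent.Run7.h374.XK.t_LTA K (Eg e g) 0 (em0 e g) (-(em0 e g)) (isR_g e g) n1 n2 n3 1 (em0 e d)
      one_ne_zero hD L
    rw [map_zero, map_neg, map_one]
    exact h
  refine ⟨((Run7.h376.XK.t_CAD K (Eg e g) 0 (em0 e g) (-(em0 e g)) (isR_g e g) n1 n2 n3).1 1 (em0 e d)
    one_ne_zero hD).1, fun v => ?_, fun v => ?_⟩
  · by_cases hv : v = plc e pi1_prime
    · subst hv
      exact base _ h2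
    · obtain ⟨z, hz, rfl⟩ : ∃ (z : ZI) (hz : Prime z), v = plc e hz :=
        ⟨_, pg_prime e v, (plc_pg e v).symm⟩
      have hz2 : ¬ z ∣ 2 := by
        intro h
        apply hv
        have e2 : (2 : ZI) = -im1 * pi1 ^ 2 := by decide
        have h3 : z ∣ pi1 := by
          rw [e2] at h
          rcases hz.dvd_or_dvd h with h4 | h4
          · exfalso
            have h5 : (-im1 : ZI) ∣ 1 := ⟨im1, by decide⟩
            exact hz.not_isUnit (isUnit_of_dvd_one (h4.trans h5))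
          · exact hz.dvd_of_dvd_pow h4
        have h6 : Associated z pi1 := hz.associated_of_dvd pi1_prime h3
        apply HeightOneSpectrum.ext
        show Ideal.span {e z} = Ideal.span {e pi1}
        rw [Ideal.span_singleton_eq_span_singleton]
        exact h6.map e
      apply base
      by_cases hzg : z ∣ g
      · obtain ⟨o1, o2⟩ := hodd z hz hz2 hzg
        exact bad_odd e hz hz2 hg hsq hzg o1 o2
      · exact good_odd e hz hz2 hd0 hzg (fun h => hzg (by rw [hg]; exact h.mul_right r))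
  · exact base _ (Or.inl ⟨⟨1, (mul_one 1).symm⟩, inf_sq e v _⟩)

/-- squares in `K` -/
lemma sq_of {a : ZI} (h : IsSquare (em0 e a : K)) : IsSquare a := by
  obtain ⟨x, hx⟩ := h
  have h1 : IsIntegral (𝓞 K) x := by
    refine ⟨Polynomial.X ^ 2 - Polynomial.C (e a), Polynomial.monic_X_pow_sub_C _ two_ne_zero, ?_⟩
    rw [Polynomial.eval₂_sub, Polynomial.eval₂_pow, Polynomial.eval₂_X, Polynomial.eval₂_C, ← em0_apply, hx]
    ring
  obtain ⟨y, hy⟩ := IsIntegrallyClosed.isIntegral_iff.1 h1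
  have h2 : e a = y * y := by
    apply IsFractionRing.injective (𝓞 K) K
    rw [map_mul, hy, ← em0_apply, hx]
  refine ⟨e.symm y, ?_⟩
  rw [← map_mul, ← h2, RingEquiv.symm_apply_apply]

lemma unit_of_sqf {a : ZI} (h : Squarefree a) (hs : IsSquare a) : IsUnit a := by
  obtain ⟨b, hb⟩ := hs
  have := h b (by rw [hb])
  rw [hb]
  exact this.mul this

/-- finitely many points -/
lemma ab_fin {g : ZI} (hg : g ≠ 0) (hf : Finite (Eg (K := K) e g).toAffine.Point) : (Ab (em0 e g : K)).Finite := by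
  have hG : (em0 e g : K) ≠ 0 := em0_ne e hg
  have hΔ : (Eg (K := K) e g).Δ ≠ 0 := by
    have h1 : (Eg (K := K) e g).Δ = 2 ^ 6 * (em0 e g) ^ 6 := by
      simp only [Eg, WeierstrassCurve.Δ, WeierstrassCurve.b₂, WeierstrassCurve.b₄, WeierstrassCurve.b₆,
        WeierstrassCurve.b₈]
      ring
    rw [h1]
    exact mul_ne_zero (pow_ne_zero 6 two_ne_zero) (pow_ne_zero 6 hG)
  have hns : ∀ x y : K, y ^ 2 = x * (x ^ 2 - (em0 e g) ^ 2) → (Eg (K := K) e g).toAffine.Nonsingular x y := by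
    intro x y h
    rw [← WeierstrassCurve.Affine.equation_iff_nonsingular_of_Δ_ne_zero hΔ, WeierstrassCurve.Affine.equation_iff]
    show y ^ 2 + 0 * x * y + 0 * y = x ^ 3 + 0 * x ^ 2 + -(em0 e g) ^ 2 * x + 0
    linear_combination h
  have key : ∀ x : Ab (em0 e g : K), ∃ y : K, y ^ 2 = x.1 * (x.1 ^ 2 - (em0 e g) ^ 2) := by
    rintro ⟨x, y, -, h⟩
    exact ⟨y, h⟩
  choose f hfx using key
  let F : Ab (em0 e g : K) → (Eg (K := K) e g).toAffine.Point := fun x =>
    WeierstrassCurve.Affine.Point.some _ _ (hns x.1 (f x) (hfx x))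
  have hF : Function.Injective F := by
    intro x x' h
    have h1 := (WeierstrassCurve.Affine.Point.some.injEq _ _ _ _ _ _).mp h
    exact Subtype.ext h1.1
  have := Finite.of_injective F hF
  exact Set.toFinite _

/-- **the converse** -/
theorem conv {g d r : ZI} (hg : g = d * r) (hsq : Squarefree g)
    (hodd : ∀ z, Prime z → ¬ z ∣ 2 → z ∣ g →
      (z ∣ d → ∃ b, z ∣ r - b ^ 2) ∧ (¬ z ∣ d → ∃ b, z ∣ d - b ^ 2))
    (h2 : Im ((plc e pi1_prime).adicCompletion K) 0 (ph e pi1_prime (em0 e g))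
      (-(ph e pi1_prime (em0 e g))) 1 (ph e pi1_prime (em0 e d)))
    (hns : ¬ IsSquare g) (hd : ¬ IsUnit d) (hr : ¬ IsSquare r)
    (hf : Finite (Eg (K := K) e g).toAffine.Point)
    (hs : ∀ x : Sha (Eg (K := K) e g), 2 • x = 0 → x = 0) : False := by
  have hg0 : g ≠ 0 := hsq.ne_zero
  have hd0 : d ≠ 0 := by
    rintro rfl
    exact hg0 (by rw [hg, zero_mul])
  have hdsq : Squarefree d := hsq.squarefree_of_dvd ⟨r, hg⟩
  have hG : em0 e g ≠ 0 := em0_ne e hg0
  have hD : em0 e d ≠ 0 := em0_ne e hd0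
  have n1 : (0 : K) ≠ em0 e g := hG.symm
  have n2 : (0 : K) ≠ -(em0 e g) := (neg_ne_zero.2 hG).symm
  have n3 : em0 e g ≠ -(em0 e g) := by
    intro h
    have h3 : 2 * em0 e g = 0 := by linear_combination h
    exact (mul_ne_zero two_ne_zero hG) h3
  have hf1 := sha_d e hg hsq hodd h2
  have hcob : IsCob (Eg (K := K) e g) (Cc (Eg e g) 0 (em0 e g) 1 (em0 e d)) := by
    rw [← Pool.Agent.Run7.h289.XK.cl_eq_zero hf1]
    apply hs
    rw [Pool.Agent.Run7.h289.XK.two_cl,
      ((Run7.h376.XK.t_CAD K (Eg e g) 0 (em0 e g) (-(em0 e g)) (isR_g e g) n1 n2 n3).1 1 (em0 e d)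
        one_ne_zero hD).2]
    exact (cob (Eg (K := K) e g)).zero_mem
  have him := (Run7.h376.XK.t_LTG Pool.Agent.Run7.h374.XK.t_LTA Run7.h135.XK.t_LTB K (Eg e g) 0 (em0 e g)
    (-(em0 e g)) (isR_g e g) n1 n2 n3 1 (em0 e d) one_ne_zero hD).1 hcob
  have hj : (em0 e im1 : K) ^ 2 = -1 := Pool.Agent.Y715.Z.im1_sq e
  have hns' : ¬ IsSquare (em0 e g : K) := fun h => hns (sq_of e h)
  have hfin := ab_fin e hg0 hf
  have hfinal : IsSquare (em0 e d : K) ∨ IsSquare (em0 e g * em0 e d : K) := by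
    rcases him with ⟨-, h3⟩ | ⟨x, u, v, w, h3, h4, h5⟩
    · exact Or.inl h3
    · exact glob (g := em0 e g) hj two_ne_zero hG hns' hfin hD (x := x) (u := u) (v := v) (w := w)
        (by linear_combination h3) h4 (by linear_combination h5)
  rcases hfinal with h3 | h3
  · exact hd (unit_of_sqf hdsq (sq_of e h3))
  · apply hr
    apply sq_of e (K := K)
    obtain ⟨t, ht⟩ := h3
    refine ⟨t / em0 e d, ?_⟩
    have h6 : (em0 e g : K) = em0 e d * em0 e r := by rw [hg, map_mul]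
    rw [h6] at ht
    rw [div_mul_div_comm, ← ht]
    field_simp

end Pool.Agent.Run7.h843.QJ
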