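import Pool.Agent.Run7.h843.QJ.CvS
import Pool.Agent.Run7.h843.QJ.Cnt
import Pool.Agent.Run7.h843.QJ.PAR2
import Pool.Agent.Run7.h374.XK.FF

/-!
# The sufficient local conditions for the class `d` (converse of the Selmer computation)
-/

set_option autoImplicit false
set_option linter.unusedSectionVars false

open NumberField IsDedekindDomain WithZero

namespace Pool.Agent.Run7.h843.QJ

open Pool.Agent.Y682 (S1 S2 vv vv_coe)
open Pool.Agent.Y699
open Pool.Agent.Y715.Z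
open Run7.h26.QI (odd_mod2)
open H385 (ZI RQ im1 nrm)
open Run7.h135.XK (Im S_FF)

variable {K : Type} [Field K] [NumberField K] (e : ZI ≃+* 𝓞 K)

section odd

variable {z : ZI} (hz : Prime z)

/-- squares at the odd places -/
lemma sqO (h2 : ¬ z ∣ 2) {a b : ZI} (ha : ¬ z ∣ a) (hab : z ∣ a - b ^ 2) :
    ∃ x : (plc e hz).adicCompletion K, x ^ 2 = ph e hz (em0 e a) := by
  have hb : ¬ z ∣ b := by
    intro h
    apply ha
    have : a = (a - b ^ 2) + b ^ 2 := by ring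
    rw [this]
    exact dvd_add hab (dvd_pow h two_ne_zero)
  have hb0 : b ≠ 0 := by
    rintro rfl
    exact hb (dvd_zero z)
  have hpb : ph e hz (em0 e b) ≠ 0 := (map_ne_zero _).2 (em0_ne e hb0)
  apply Pool.Agent.Y682.exists_sqrt' (plc e hz) hpb
  have h4 : vv (plc e hz) (4 : (plc e hz).adicCompletion K) = 1 := by
    have e4 : (4 : (plc e hz).adicCompletion K) = ph e hz (em0 e (2 * 2)) := by
      rw [map_mul, map_mul, map_ofNat, map_ofNat]; norm_num
    rw [e4, vv_coe, map_mul, map_mul, val_one e hz h2, one_mul]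
  have h5 : vv (plc e hz) (ph e hz (em0 e b)) = 1 := by rw [vv_coe, val_one e hz hb]
  rw [h4, h5, one_pow, one_mul]
  have h6 : ph e hz (em0 e a) - (ph e hz (em0 e b)) ^ 2 = ph e hz (em0 e (a - b ^ 2)) := by
    rw [map_sub, map_sub, map_pow, map_pow]
  rw [h6, vv_coe]
  exact (val_lt e hz _).2 hab

/-- `A = d v²` at the odd places -/
lemma lift_d (h2 : ¬ z ∣ 2) {a d b : ZI} (hd0 : d ≠ 0) (hd : ¬ z ∣ d) (ha : ¬ z ∣ a)
    (hab : z ∣ a - d * b ^ 2) :
    ∃ x : (plc e hz).adicCompletion K, ph e hz (em0 e a) = ph e hz (em0 e d) * x ^ 2 := by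
  have hpd : ph e hz (em0 e d) ≠ 0 := (map_ne_zero _).2 (em0_ne e hd0)
  obtain ⟨y, hy⟩ := sqO e hz h2 (a := a * d) (b := d * b)
    (fun h => (hz.dvd_or_dvd h).elim ha hd) (by
      have : a * d - (d * b) ^ 2 = (a - d * b ^ 2) * d := by ring
      rw [this]
      exact hab.mul_right d)
  refine ⟨y / ph e hz (em0 e d), ?_⟩
  rw [div_pow, hy, map_mul, map_mul]
  field_simp

theorem good_odd (h2 : ¬ z ∣ 2) {g d : ZI} (hd0 : d ≠ 0) (hg : ¬ z ∣ g) (hd : ¬ z ∣ d) :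
    Im ((plc e hz).adicCompletion K) 0 (ph e hz (em0 e g)) (-(ph e hz (em0 e g))) 1
      (ph e hz (em0 e d)) := by
  have hmax : (Ideal.span {z} : Ideal ZI).IsMaximal := PrincipalIdealRing.isMaximal_of_irreducible hz.irreducible
  let _ : Field (ZI ⧸ (Ideal.span {z} : Ideal ZI)) := Ideal.Quotient.field _
  have _ : Finite (ZI ⧸ (Ideal.span {z} : Ideal ZI)) := H385.he1_finite hz.ne_zero
  have m0 : ∀ a : ZI, Ideal.Quotient.mk (Ideal.span {z}) a = 0 ↔ z ∣ a := fun a => by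
    rw [Ideal.Quotient.eq_zero_iff_mem, Ideal.mem_span_singleton]
  set q := Ideal.Quotient.mk (Ideal.span {z} : Ideal ZI) with hq
  have q2 : (2 : ZI ⧸ (Ideal.span {z} : Ideal ZI)) ≠ 0 := by
    intro h
    apply h2
    rw [← m0, map_ofNat]
    exact h
  have qg : q g ≠ 0 := fun h => hg ((m0 g).1 h)
  have qd : q d ≠ 0 := fun h => hd ((m0 d).1 h)
  have lft : ∀ a b : ZI, q a = q b → z ∣ a - b := fun a b h => by
    rw [← m0, map_sub]
    exact sub_eq_zero.2 h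
  rcases Pool.Agent.Run7.h374.XK.t_FF (ZI ⧸ (Ideal.span {z} : Ideal ZI)) 0 (q g) (-(q g)) 1 (q d) q2
      qg.symm (neg_ne_zero.2 qg).symm (by
        intro h
        have h3 : 2 * q g = 0 := by linear_combination h
        rcases mul_eq_zero.1 h3 with h4 | h4
        · exact q2 h4
        · exact qg h4) one_ne_zero qd with ⟨-, b, hb⟩ | ⟨x, u, v, w, hu, hv, hw⟩
  · obtain ⟨b, rfl⟩ := Ideal.Quotient.mk_surjective b
    obtain ⟨s, hs⟩ := sqO e hz h2 hd (b := b) (lft _ _ (by rw [map_pow, sq]; exact hb))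
    exact Or.inl ⟨⟨1, (mul_one 1).symm⟩, s, by rw [← hs, sq]⟩
  · obtain ⟨x, rfl⟩ := Ideal.Quotient.mk_surjective x
    obtain ⟨u, rfl⟩ := Ideal.Quotient.mk_surjective u
    obtain ⟨v, rfl⟩ := Ideal.Quotient.mk_surjective v
    obtain ⟨w, rfl⟩ := Ideal.Quotient.mk_surjective w
    have hu' : z ∣ x - u ^ 2 := lft _ _ (by rw [map_pow]; linear_combination hu)
    have hv' : z ∣ (x - g) - d * v ^ 2 := lft _ _ (by rw [map_sub, map_mul, map_pow]; exact hv)
    have hw' : z ∣ (x + g) - d * w ^ 2 := lft _ _ (by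
      rw [map_add, map_mul, map_pow]; linear_combination hw)
    right
    by_cases c0 : z ∣ x
    · obtain ⟨v1, hv1⟩ := lift_d e hz h2 (a := -g) (d := d) (b := v) hd0 hd
        (fun h => hg ((dvd_neg).1 h)) (by
          have : -g - d * v ^ 2 = ((x - g) - d * v ^ 2) - x := by ring
          rw [this]; exact dvd_sub hv' c0)
      obtain ⟨w1, hw1⟩ := lift_d e hz h2 (a := g) (d := d) (b := w) hd0 hd hg (by
          have : g - d * w ^ 2 = ((x + g) - d * w ^ 2) - x := by ring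
          rw [this]; exact dvd_sub hw' c0)
      refine ⟨0, 0, v1, w1, by ring, ?_, ?_⟩
      · rw [← hv1, map_neg, map_neg]; ring
      · rw [one_mul, ← hw1]; ring
    by_cases c1 : z ∣ x - g
    · obtain ⟨u1, hu1⟩ := sqO e hz h2 hg (b := u) (by
          have : g - u ^ 2 = (x - u ^ 2) - (x - g) := by ring
          rw [this]; exact dvd_sub hu' c1)
      obtain ⟨w1, hw1⟩ := lift_d e hz h2 (a := 2 * g) (d := d) (b := w) hd0 hd
        (fun h => (hz.dvd_or_dvd h).elim h2 hg) (by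
          have : 2 * g - d * w ^ 2 = ((x + g) - d * w ^ 2) - (x - g) := by ring
          rw [this]; exact dvd_sub hw' c1)
      refine ⟨ph e hz (em0 e g), u1, 0, w1, ?_, by ring, ?_⟩
      · rw [hu1]; ring
      · rw [one_mul, ← hw1, map_mul, map_mul, map_ofNat, map_ofNat]; ring
    by_cases c2 : z ∣ x + g
    · obtain ⟨u1, hu1⟩ := sqO e hz h2 (a := -g) (fun h => hg ((dvd_neg).1 h)) (b := u) (by
          have : -g - u ^ 2 = (x - u ^ 2) - (x + g) := by ring
          rw [this]; exact dvd_sub hu' c2)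
      obtain ⟨v1, hv1⟩ := lift_d e hz h2 (a := -(2 * g)) (d := d) (b := v) hd0 hd
        (fun h => (hz.dvd_or_dvd ((dvd_neg).1 h)).elim h2 hg) (by
          have : -(2 * g) - d * v ^ 2 = ((x - g) - d * v ^ 2) - (x + g) := by ring
          rw [this]; exact dvd_sub hv' c2)
      refine ⟨-(ph e hz (em0 e g)), u1, v1, 0, ?_, ?_, by ring⟩
      · rw [hu1, map_neg, map_neg]; ring
      · rw [← hv1, map_neg, map_neg, map_mul, map_mul, map_ofNat, map_ofNat]; ring
    · obtain ⟨u1, hu1⟩ := sqO e hz h2 c0 hu'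
      obtain ⟨v1, hv1⟩ := lift_d e hz h2 (a := x - g) (d := d) (b := v) hd0 hd c1 hv'
      obtain ⟨w1, hw1⟩ := lift_d e hz h2 (a := x + g) (d := d) (b := w) hd0 hd c2 hw'
      refine ⟨ph e hz (em0 e x), u1, v1, w1, ?_, ?_, ?_⟩
      · rw [hu1]; ring
      · rw [← hv1, map_sub, map_sub]
      · rw [one_mul, ← hw1, map_add, map_add]; ring

/-- the places dividing `g` -/
theorem bad_odd (h2 : ¬ z ∣ 2) {g d r : ZI} (hg : g = d * r) (hsq : Squarefree g) (_hzg : z ∣ g)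
    (h1 : z ∣ d → ∃ b, z ∣ r - b ^ 2) (h1' : ¬ z ∣ d → ∃ b, z ∣ d - b ^ 2) :
    Im ((plc e hz).adicCompletion K) 0 (ph e hz (em0 e g)) (-(ph e hz (em0 e g))) 1
      (ph e hz (em0 e d)) := by
  by_cases hd : z ∣ d
  · have hr : ¬ z ∣ r := by
      rintro ⟨k, hk⟩
      obtain ⟨l, hl⟩ := hd
      exact hz.not_isUnit (hsq z ⟨l * k, by rw [hg, hk, hl]; ring⟩)
    obtain ⟨b, hb⟩ := h1 hd
    obtain ⟨s, hs⟩ := sqO e hz h2 hr hb
    right
    have hi : (ph e hz (em0 e im1)) ^ 2 = -1 := by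
      rw [← map_pow, Pool.Agent.Y715.Z.im1_sq, map_neg, map_one]
    have hG : ph e hz (em0 e g) = ph e hz (em0 e d) * s ^ 2 := by
      rw [hs, hg, map_mul, map_mul]
    refine ⟨0, 0, ph e hz (em0 e im1) * s, s, by ring, ?_, ?_⟩
    · rw [mul_pow, hi, hG]; ring
    · rw [hG]; ring
  · obtain ⟨b, hb⟩ := h1' hd
    obtain ⟨s, hs⟩ := sqO e hz h2 hd hb
    exact Or.inl ⟨⟨1, (mul_one 1).symm⟩, s, by rw [← hs, sq]⟩

end odd

/-! ### the place `1 + i` -/

/-- squares at `1 + i` -/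
lemma sqT {a : ZI} (h : pi1 ^ 5 ∣ a - 1) :
    ∃ x : (plc e pi1_prime).adicCompletion K, x ^ 2 = ph e pi1_prime (em0 e a) := by
  apply Pool.Agent.Y682.exists_sqrt' (plc e pi1_prime) one_ne_zero
  have e4 : (4 : (plc e pi1_prime).adicCompletion K) = ph e pi1_prime (em0 e (-(pi1 ^ 4))) := by
    have : -(pi1 ^ 4) = (4 : ZI) := by decide
    rw [this, map_ofNat, map_ofNat]
  have h4 : vv (plc e pi1_prime) (4 : (plc e pi1_prime).adicCompletion K) = exp (-4 : ℤ) := by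
    rw [e4, vv_coe, map_neg, Valuation.map_neg, map_pow, map_pow, val_z e pi1_prime, ← exp_nsmul]
    norm_num
  rw [h4, map_one, one_pow, one_pow, mul_one]
  have h6 : ph e pi1_prime (em0 e a) - 1 = ph e pi1_prime (em0 e (a - 1)) := by
    rw [map_sub, map_sub, map_one, map_one]
  rw [h6, vv_coe]
  have h5 := (val_le_pow e pi1_prime (a - 1) 5).2 h
  refine lt_of_le_of_lt h5 ?_
  rw [exp_lt_exp]
  norm_num

lemma pi1_sub {a : ZI} (h : ¬ pi1 ∣ a) : pi1 ∣ a - 1 := by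
  rcases odd_mod2 h with h | h
  · exact pi1_two.trans h
  · have h3 : a - 1 = (a - im1) + (im1 - 1) := by ring
    rw [h3]
    exact dvd_add (pi1_two.trans h) ⟨im1, by decide⟩

/-- from a square in the torsor -/
lemma im_of {g d m y zz : (plc e pi1_prime).adicCompletion K} (hm0 : m ≠ 0) (hm : d * zz ^ 2 = m)
    (hy : y ^ 2 = m * (m ^ 2 - g ^ 2)) : Im ((plc e pi1_prime).adicCompletion K) 0 g (-g) 1 d := by
  have hj : (ph e pi1_prime (em0 e im1)) ^ 2 = -1 := by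
    rw [← map_pow, Pool.Agent.Y715.Z.im1_sq, map_neg, map_one]
  have : CharZero ((plc e pi1_prime).adicCompletion K) := Pool.Agent.Y682.charZero_adic _
  obtain ⟨x, u, v, w, h1, h2, h3⟩ := of_torsor hj two_ne_zero hm0 hm hy
  exact Or.inr ⟨x, u, v, w, by rw [h1]; ring, by rw [h2], by rw [one_mul, ← h3]; ring⟩

/-- `g` is a unit at `1 + i` -/
theorem at2_unit {g d r : ZI} (hg : g = d * r) (hg2 : ¬ pi1 ∣ g) (h : (4 : ZI) ∣ d - 1) :
    Im ((plc e pi1_prime).adicCompletion K) 0 (ph e pi1_prime (em0 e g))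
      (-(ph e pi1_prime (em0 e g))) 1 (ph e pi1_prime (em0 e d)) := by
  obtain ⟨k, hk⟩ := h
  have e4 : (4 : ZI) = -(pi1 ^ 4) := by decide
  by_cases hk1 : pi1 ∣ k
  · obtain ⟨l, hl⟩ := hk1
    obtain ⟨s, hs⟩ := sqT e (a := d) ⟨-l, by rw [hk, hl, e4]; ring⟩
    exact Or.inl ⟨⟨1, (mul_one 1).symm⟩, s, by rw [← hs, sq]⟩
  · have hr : ¬ pi1 ∣ r := fun h => hg2 (by rw [hg]; exact h.mul_left d)
    obtain ⟨a, ha⟩ := pi1_sub hk1
    obtain ⟨b, hb⟩ := pi1_sub hr
    have hk2 : k = 1 + pi1 * a := by linear_combination ha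
    have hr2 : r = 1 + pi1 * b := by linear_combination hb
    have e2 : (2 : ZI) = -im1 * pi1 ^ 2 := by decide
    have h5 : pi1 ^ 5 ∣ d * (1 + 4 * r ^ 2) - 1 := by
      have h6 : d = 1 + 4 * k := by linear_combination hk
      have h7 : pi1 ∣ k + r ^ 2 := by
        refine ⟨a + 2 * b + pi1 * b ^ 2 - im1 * pi1, ?_⟩
        rw [hk2, hr2]
        linear_combination e2
      obtain ⟨c, hc⟩ := h7
      refine ⟨-c + pi1 ^ 3 * k * r ^ 2, ?_⟩
      have h8 : d * (1 + 4 * r ^ 2) - 1 = 4 * (k + r ^ 2) + 4 * 4 * k * r ^ 2 := by rw [h6]; ring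
      rw [h8, hc, e4]
      ring
    obtain ⟨s, hs⟩ := sqT e h5
    have hd0 : d ≠ 0 := by
      rintro rfl
      apply hg2
      rw [hg, zero_mul]
      exact dvd_zero _
    have hD : ph e pi1_prime (em0 e d) ≠ 0 := (map_ne_zero _).2 (em0_ne e hd0)
    have hp : ph e pi1_prime (em0 e pi1) ≠ 0 := (map_ne_zero _).2 (em0_ne e pi1_prime.ne_zero)
    have hp4 : (ph e pi1_prime (em0 e pi1)) ^ 4 = -4 := by
      rw [← map_pow, ← map_pow]
      have : pi1 ^ 4 = -(4 : ZI) := by decide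
      rw [this, map_neg, map_neg, map_ofNat, map_ofNat]
    have hs' : s ^ 2 = ph e pi1_prime (em0 e d) * (1 + 4 * (ph e pi1_prime (em0 e r)) ^ 2) := by
      rw [hs]
      simp only [map_mul, map_add, map_one, map_pow, map_ofNat]
    have hG : ph e pi1_prime (em0 e g) = ph e pi1_prime (em0 e d) * ph e pi1_prime (em0 e r) := by
      rw [hg, map_mul, map_mul]
    rw [hG]
    refine im_of e (m := ph e pi1_prime (em0 e d) / (ph e pi1_prime (em0 e pi1)) ^ 2)
      (y := ph e pi1_prime (em0 e d) / (ph e pi1_prime (em0 e pi1)) ^ 3 * s)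
      (zz := 1 / ph e pi1_prime (em0 e pi1)) (div_ne_zero hD (pow_ne_zero 2 hp)) (by field_simp) ?_
    rw [mul_pow, hs']
    field_simp
    rw [hp4]
    ring

/-- `g` is even -/
theorem at2_even {g c d d' : ZI} (hg : g = d * (c * d')) (hc : c ^ 2 = 2 * im1 ∨ c ^ 2 = -(2 * im1))
    (hd0 : d ≠ 0) (hp' : pi1 ^ 3 ∣ d' - 1) (h : pi1 ^ 5 ∣ d - 1 ∨ pi1 ^ 5 ∣ d - (c ^ 2 - 1)) :
    Im ((plc e pi1_prime).adicCompletion K) 0 (ph e pi1_prime (em0 e g))
      (-(ph e pi1_prime (em0 e g))) 1 (ph e pi1_prime (em0 e d)) := by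
  rcases h with h | h
  · obtain ⟨s, hs⟩ := sqT e (a := d) h
    exact Or.inl ⟨⟨1, (mul_one 1).symm⟩, s, by rw [← hs, sq]⟩
  · have hd'2 : pi1 ^ 5 ∣ d' ^ 2 - 1 := by
      obtain ⟨a, ha⟩ := hp'
      have h6 : d' = 1 + pi1 ^ 3 * a := by linear_combination ha
      have e2 : (2 : ZI) = -im1 * pi1 ^ 2 := by decide
      refine ⟨-im1 * a + pi1 * a ^ 2, ?_⟩
      rw [h6]
      linear_combination (pi1 ^ 3 * a) * e2
    have h5 : pi1 ^ 5 ∣ d * ((c * d') ^ 2 - 1) - 1 := by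
      obtain ⟨a, ha⟩ := hd'2
      obtain ⟨b, hb⟩ := h
      have h6 : d' ^ 2 = 1 + pi1 ^ 5 * a := by linear_combination ha
      have h7 : d = c ^ 2 - 1 + pi1 ^ 5 * b := by linear_combination hb
      have h8 : pi1 ^ 5 ∣ (c ^ 2 - 1) ^ 2 - 1 := by
        rcases hc with hc | hc <;> rw [hc]
        · exact ⟨1, by decide⟩
        · exact ⟨-im1, by decide⟩
      obtain ⟨l, hl⟩ := h8
      refine ⟨l + b * (c ^ 2 * d' ^ 2 - 1) + (c ^ 2 - 1) * c ^ 2 * a, ?_⟩
      have h9 : (c * d') ^ 2 - 1 = c ^ 2 - 1 + pi1 ^ 5 * (c ^ 2 * a) := by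
        rw [mul_pow, h6]; ring
      have h10 : d * ((c * d') ^ 2 - 1) - 1 =
          (c ^ 2 - 1) * ((c * d') ^ 2 - 1) + pi1 ^ 5 * b * (c ^ 2 * d' ^ 2 - 1) - 1 := by
        rw [h7]; ring
      rw [h10, h9]
      linear_combination hl
    obtain ⟨s, hs⟩ := sqT e h5
    have hD : ph e pi1_prime (em0 e d) ≠ 0 := (map_ne_zero _).2 (em0_ne e hd0)
    have hs' : s ^ 2 = ph e pi1_prime (em0 e d) * ((ph e pi1_prime (em0 e (c * d'))) ^ 2 - 1) := by
      rw [hs]
      simp only [map_mul, map_sub, map_one, map_pow]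
    have hG : ph e pi1_prime (em0 e g) = ph e pi1_prime (em0 e d) * ph e pi1_prime (em0 e (c * d')) := by
      rw [hg, map_mul, map_mul]
    have hi : (ph e pi1_prime (em0 e im1)) ^ 2 = -1 := by
      rw [← map_pow, Pool.Agent.Y715.Z.im1_sq, map_neg, map_one]
    rw [hG]
    refine im_of e (m := ph e pi1_prime (em0 e d))
      (y := ph e pi1_prime (em0 e im1) * ph e pi1_prime (em0 e d) * s)
      (zz := 1) hD (by ring) ?_
    rw [mul_pow, mul_pow, hs', hi]
    ring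

end Pool.Agent.Run7.h843.QJ
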