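import Pool.Agent.Run7.h26.QI.Cr
import Pool.Agent.Y699.Pr

/-!
# The symbols in a factorization which violates the criterion
-/

set_option autoImplicit false
set_option linter.unusedSectionVars false

namespace Pool.Agent.Run7.h843.QJ

open Pool.Agent.Y699
open Run7.h26.CN (th th_cases th_pm th_one)
open Run7.h26.QI (cc3 lm lm_cases lm_mul qr_pi1 qr_th prim_lin not_dvd_cc3)
open Pool.Agent.H304R2.EC.A1 (prim prim_mul prim_cancel prim_one prim_norm_odd prim_ne_zero norm_def')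
open H385 (ZI RQ im1 nrm)

lemma jac_ep {ep : ZI → ℤ} (hm : ∀ a b, prim a → prim b → ep (a * b) = ep a * ep b) (h1 : ep 1 = 1)
    {c : ZI} (hc : ∀ π, PP π → qr π c = ep π) {d : ZI} (hd : PS d) : jac d c = ep d := by
  classical
  have key : ∀ S : Finset ZI, (∀ π ∈ S, PP π) → prim (∏ π ∈ S, π) ∧ ep (∏ π ∈ S, π) = ∏ π ∈ S, qr π c := by
    intro S
    induction S using Finset.induction_on with
    | empty => intro _; exact ⟨by rw [Finset.prod_empty]; exact prim_one, by rw [Finset.prod_empty, Finset.prod_empty, h1]⟩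
    | insert a s ha ih =>
      intro h
      obtain ⟨h2, h3⟩ := ih (fun π hπ => h π (Finset.mem_insert_of_mem hπ))
      have h4 := h a (Finset.mem_insert_self a s)
      refine ⟨by rw [Finset.prod_insert ha]; exact prim_mul h4.prm h2, ?_⟩
      rw [Finset.prod_insert ha, Finset.prod_insert ha, hm _ _ h4.prm h2, h3, hc a h4]
  have h2 := (key (PD d) (fun π hπ => ((mem_PD hd.ne).1 hπ).1)).2
  rw [hd.prod] at h2
  exact h2.symm

/-- the product formula -/
lemma jac_c {c d d' : ZI} (hd : PS d) (hd' : PS d') (h1 : ∀ π ∈ PD d, qr π (c * d') = 1)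
    (h2 : ∀ π ∈ PD d', qr π d = 1) : jac d c = 1 := by
  have e1 : jac d (c * d') = 1 := Finset.prod_eq_one h1
  have e2 : jac d' d = 1 := Finset.prod_eq_one h2
  rw [jac_mul_right hd.ne, jac_rec hd hd', e2, mul_one] at e1
  exact e1

lemma p5 {a : ZI} (h1 : a.re % 4 = 0) (h2 : a.im % 4 = 0) (h3 : (a.re + a.im) % 8 = 0) : pi1 ^ 5 ∣ a := by
  obtain ⟨x, hx⟩ : ∃ x, a.re = 4 * x := ⟨a.re / 4, by omega⟩
  obtain ⟨y, hy⟩ : ∃ y, a.im = 4 * y := ⟨a.im / 4, by omega⟩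
  obtain ⟨s, hs⟩ : ∃ s, x + y = 2 * s := ⟨(x + y) / 2, by omega⟩
  obtain ⟨t, ht⟩ : ∃ t, y - x = 2 * t := ⟨(y - x) / 2, by omega⟩
  have e5 : pi1 ^ 5 = ⟨-4, -4⟩ := by decide
  refine ⟨⟨-s, -t⟩, ?_⟩
  rw [e5]
  apply Zsqrtd.ext
  · rw [Zsqrtd.re_mul, hx]
    show 4 * x = -4 * -s + -1 * (-4) * -t
    omega
  · rw [Zsqrtd.im_mul, hy]
    show 4 * y = -4 * -t + -4 * -s
    omega

lemma four_of_th {d : ZI} (hd : prim d) (h : d.norm % 8 = 1) : (4 : ZI) ∣ d - 1 := by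
  obtain ⟨h1, h2⟩ := prim_lin hd
  rw [norm_def'] at h
  have hb : d.im % 4 = 0 := by
    obtain ⟨y, hy⟩ : ∃ y, d.im = 2 * y := ⟨d.im / 2, by omega⟩
    obtain ⟨x, hx⟩ : ∃ x, d.re = 2 * x + 1 := ⟨d.re / 2, by omega⟩
    rw [hx, hy] at h
    have hxx : (x * (x + 1)) % 2 = 0 := by
      rcases Int.emod_two_eq_zero_or_one x with h5 | h5
      · rw [Int.mul_emod, h5, zero_mul]; rfl
      · rw [Int.mul_emod, Int.add_emod, h5]; rfl
    have e : (2 * x + 1) ^ 2 + (2 * y) ^ 2 = 4 * (x * (x + 1)) + 1 + 4 * (y * y) := by ring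
    rw [e] at h
    rcases Int.emod_two_eq_zero_or_one y with h5 | h5
    · omega
    · exfalso
      have : (y * y) % 2 = 1 := by rw [Int.mul_emod, h5]; rfl
      omega
  have ha : (d.re - 1) % 4 = 0 := by omega
  refine ⟨⟨(d.re - 1) / 4, d.im / 4⟩, ?_⟩
  apply Zsqrtd.ext
  · rw [Zsqrtd.re_sub, Zsqrtd.re_mul]
    show d.re - 1 = 4 * ((d.re - 1) / 4) + -1 * 0 * (d.im / 4)
    omega
  · rw [Zsqrtd.im_sub, Zsqrtd.im_mul]
    show d.im - 0 = 4 * (d.im / 4) + 0 * ((d.re - 1) / 4)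
    omega

lemma norm_im {d : ZI} (hd : prim d) : (d.norm % 8 = 1 ↔ d.im % 4 = 0) := by
  obtain ⟨h1, h2⟩ := prim_lin hd
  rw [norm_def']
  obtain ⟨y, hy⟩ : ∃ y, d.im = 2 * y := ⟨d.im / 2, by omega⟩
  obtain ⟨x, hx⟩ : ∃ x, d.re = 2 * x + 1 := ⟨d.re / 2, by omega⟩
  rw [hx, hy]
  have hxx : (x * (x + 1)) % 2 = 0 := by
    rcases Int.emod_two_eq_zero_or_one x with h5 | h5
    · rw [Int.mul_emod, h5, zero_mul]; rfl
    · rw [Int.mul_emod, Int.add_emod, h5]; rfl
  have e : (2 * x + 1) ^ 2 + (2 * y) ^ 2 = 4 * (x * (x + 1)) + 1 + 4 * (y * y) := by ring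
  rw [e]
  rcases Int.emod_two_eq_zero_or_one y with h5 | h5
  · have : (y * y) % 2 = 0 := by rw [Int.mul_emod, h5]; rfl
    omega
  · have : (y * y) % 2 = 1 := by rw [Int.mul_emod, h5]; rfl
    omega

/-- the class of `d` modulo `pi1 ^ 5`, from the symbol of `c` -/
lemma cls_c {c d : ZI} (hc : cc3 c) (hd : PS d) (h : jac d c = 1) :
    (c = im1 ∧ (4 : ZI) ∣ d - 1) ∨
      ((c = pi1 ∨ c = im1 * pi1) ∧ (pi1 ^ 5 ∣ d - 1 ∨ pi1 ^ 5 ∣ d - (c ^ 2 - 1))) := by
  obtain ⟨h1, h2⟩ := prim_lin hd.prm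
  rcases hc with hc | hc | hc
  · left
    refine ⟨hc, four_of_th hd.prm ?_⟩
    rw [hc, jac_ep (ep := th) (fun a b ha hb => th_pm ha hb) th_one (fun π hπ => qr_th hπ) hd] at h
    unfold th at h
    by_contra h3
    rw [if_neg h3] at h
    exact absurd h (by norm_num)
  · right
    refine ⟨Or.inl hc, ?_⟩
    rw [hc, jac_ep (ep := lm) (fun a b ha hb => lm_mul ha hb) (by decide) (fun π hπ => qr_pi1 hπ) hd] at h
    unfold lm at h
    have h3 : (d.re + d.im) % 8 = 1 := by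
      by_contra h3
      rw [if_neg h3] at h
      exact absurd h (by norm_num)
    have h4 : d.im % 4 = 0 ∨ d.im % 4 = 2 := by omega
    rcases h4 with h4 | h4
    · left
      apply p5
      · rw [Zsqrtd.re_sub]; show (d.re - 1) % 4 = 0; omega
      · rw [Zsqrtd.im_sub]; show (d.im - 0) % 4 = 0; omega
      · rw [Zsqrtd.re_sub, Zsqrtd.im_sub]; show (d.re - 1 + (d.im - 0)) % 8 = 0; omega
    · right
      have e : c ^ 2 - 1 = (⟨-1, 2⟩ : ZI) := by rw [hc]; decide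
      rw [e]
      apply p5
      · rw [Zsqrtd.re_sub]; show (d.re - -1) % 4 = 0; omega
      · rw [Zsqrtd.im_sub]; show (d.im - 2) % 4 = 0; omega
      · rw [Zsqrtd.re_sub, Zsqrtd.im_sub]; show (d.re - -1 + (d.im - 2)) % 8 = 0; omega
  · right
    refine ⟨Or.inr hc, ?_⟩
    have hj : jac d c = th d * lm d := by
      rw [hc, jac_mul_right hd.ne,
        jac_ep (ep := lm) (fun a b ha hb => lm_mul ha hb) (by decide) (fun π hπ => qr_pi1 hπ) hd,
        jac_ep (ep := th) (fun a b ha hb => th_pm ha hb) th_one (fun π hπ => qr_th hπ) hd]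
    rw [hj] at h
    have e : c ^ 2 - 1 = (⟨-1, -2⟩ : ZI) := by rw [hc]; decide
    rw [e]
    have hn := norm_im hd.prm
    unfold th lm at h
    by_cases h3 : (d.re + d.im) % 8 = 1
    · have h4 : d.norm % 8 = 1 := by
        by_contra h4
        rw [if_neg h4, if_pos h3] at h
        exact absurd h (by norm_num)
      have h5 := hn.1 h4
      left
      apply p5
      · rw [Zsqrtd.re_sub]; show (d.re - 1) % 4 = 0; omega
      · rw [Zsqrtd.im_sub]; show (d.im - 0) % 4 = 0; omega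
      · rw [Zsqrtd.re_sub, Zsqrtd.im_sub]; show (d.re - 1 + (d.im - 0)) % 8 = 0; omega
    · have h4 : ¬ d.norm % 8 = 1 := by
        intro h4
        rw [if_pos h4, if_neg h3] at h
        exact absurd h (by norm_num)
      have h5 : ¬ d.im % 4 = 0 := fun h6 => h4 (hn.2 h6)
      right
      apply p5
      · rw [Zsqrtd.re_sub]; show (d.re - -1) % 4 = 0; omega
      · rw [Zsqrtd.im_sub]; show (d.im - -2) % 4 = 0; omega
      · rw [Zsqrtd.re_sub, Zsqrtd.im_sub]; show (d.re - -1 + (d.im - -2)) % 8 = 0; omega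

/-- the class `1` -/
lemma cls_one {D d d' : ZI} (hd : PS d) (hd' : PS d') (he : D = d * d') (h5 : D.norm % 8 = 5) :
    (4 : ZI) ∣ d - 1 ∨ (4 : ZI) ∣ d' - 1 := by
  by_cases h1 : d.norm % 8 = 1
  · exact Or.inl (four_of_th hd.prm h1)
  · right
    apply four_of_th hd'.prm
    have h2 := prim_norm_four hd.prm
    have h3 := prim_norm_four hd'.prm
    rw [he, Zsqrtd.norm_mul, Int.mul_emod] at h5
    rcases h2 with h2 | h2 <;> rcases h3 with h3 | h3 <;> rw [h2, h3] at h5 <;> omega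

end Pool.Agent.Run7.h843.QJ
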