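import Pool.Agent.Y715.Z.Sel

/-!
# The local images of the descent by the isogeny `1 + i` on `y² = x³ - g² x`, odd places
-/

set_option autoImplicit false
set_option linter.unusedSectionVars false

open NumberField IsDedekindDomain

namespace Pool.Agent.Run7.h843.QJ

open Pool.Agent.Y682 (S1 S2 vv vv_coe)
open Pool.Agent.Y699
open Pool.Agent.Y715.Z
open H385 (ZI RQ im1 nrm)

section

variable {L : Type} [Field L] (w : Valuation L (WithZero (Multiplicative ℤ)))

/-- the local image at an odd prime dividing `g` exactly once -/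
lemma clsQ (hens : ∀ t : L, w t < 1 → ∃ y : L, y ^ 2 = 1 + t) {i g m : L} (hi : i ^ 2 = -1)
    (hg0 : g ≠ 0) (h2 : w 2 = 1) (hodd : ∀ x : L, w x ^ 2 ≠ w g)
    (h : S1 0 (-g ^ 2) m) :
    ∃ c : L, c ≠ 0 ∧ (m = c ^ 2 ∨ m = g * c ^ 2) := by
  have hi0 : i ≠ 0 := by
    rintro rfl
    rw [zero_pow two_ne_zero] at hi
    have : (1 : L) = 0 := by linear_combination hi
    exact one_ne_zero this
  have hwg : w g ≠ 0 := (Valuation.ne_zero_iff _).2 hg0
  rcases h with h | h | ⟨hm, y, hy⟩
  · exact ⟨1, one_ne_zero, Or.inl (by rw [h, one_pow])⟩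
  · exact ⟨i * g, mul_ne_zero hi0 hg0, Or.inl (by rw [h, mul_pow, hi]; ring)⟩
  · have hwm : w m ≠ 0 := (Valuation.ne_zero_iff _).2 hm
    have hy' : y ^ 2 = m * (m ^ 2 - g ^ 2) := by rw [hy]; ring
    by_cases hy0 : y = 0
    · rw [hy0, zero_pow two_ne_zero] at hy'
      have h3 : m ^ 2 - g ^ 2 = 0 := (mul_eq_zero.1 hy'.symm).resolve_left hm
      have h4 : (m - g) * (m + g) = 0 := by linear_combination h3
      rcases mul_eq_zero.1 h4 with h5 | h5
      · exact ⟨1, one_ne_zero, Or.inr (by linear_combination h5)⟩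
      · exact ⟨i, hi0, Or.inr (by linear_combination h5 - g * hi)⟩
    have hsq : ∀ r : L, w r < 1 → ∃ s : L, s ≠ 0 ∧ s ^ 2 = 1 - r ^ 2 := by
      intro r hr
      have h3 : w (-r ^ 2) < 1 := by
        rw [Valuation.map_neg, map_pow]
        exact pow_lt_one₀ zero_le hr two_ne_zero
      obtain ⟨s, hs⟩ := hens _ h3
      refine ⟨s, ?_, by rw [hs]; ring⟩
      rintro rfl
      rw [zero_pow two_ne_zero] at hs
      have h4 : -r ^ 2 = -1 := by linear_combination -hs
      rw [h4, Valuation.map_neg, map_one] at h3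
      exact lt_irrefl _ h3
    rcases lt_trichotomy (w m) (w g) with h1 | h1 | h1
    · obtain ⟨s, hs0, hs⟩ := hsq (m / g) (by
        rw [map_div₀, div_lt_iff₀ (zero_lt_iff.2 hwg), one_mul]; exact h1)
      have h3 : y ^ 2 = m * (i * g * s) ^ 2 := by
        rw [hy', mul_pow, mul_pow, hs, hi]
        field_simp
        ring
      have h4 : i * g * s ≠ 0 := mul_ne_zero (mul_ne_zero hi0 hg0) hs0
      refine ⟨y / (i * g * s), div_ne_zero hy0 h4, Or.inl ?_⟩
      rw [div_pow, h3, mul_div_assoc, div_self (pow_ne_zero 2 h4), mul_one]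
    · -- the same valuation
      set t : L := m / g with ht
      have hmt : m = g * t := by rw [ht]; field_simp
      have hwt : w t = 1 := by
        rw [ht, map_div₀, h1, div_self hwg]
      by_cases h3 : w (t - 1) < 1
      · obtain ⟨s, hs⟩ := hens _ h3
        have h4 : t = s ^ 2 := by rw [hs]; ring
        refine ⟨s, ?_, Or.inr (by rw [hmt, h4])⟩
        rintro rfl
        rw [h4, zero_pow two_ne_zero, map_zero] at hwt
        exact zero_ne_one hwt
      by_cases h5 : w (t + 1) < 1
      · have h6 : w (-t - 1) < 1 := by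
          have : -t - 1 = -(t + 1) := by ring
          rw [this, Valuation.map_neg]; exact h5
        obtain ⟨s, hs⟩ := hens _ h6
        have h4 : t = (i * s) ^ 2 := by rw [mul_pow, hi, hs]; ring
        refine ⟨i * s, ?_, Or.inr (by rw [hmt, h4])⟩
        intro h7
        rw [h4, h7, zero_pow two_ne_zero, map_zero] at hwt
        exact zero_ne_one hwt
      exfalso
      have h6 : w (t - 1) = 1 := by
        refine le_antisymm ?_ (not_lt.1 h3)
        exact (Valuation.map_sub _ _ _).trans (max_le hwt.le (map_one w).le)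
      have h7 : w (t + 1) = 1 := by
        refine le_antisymm ?_ (not_lt.1 h5)
        exact (Valuation.map_add _ _ _).trans (max_le hwt.le (map_one w).le)
      apply hodd (y / g)
      have h8 : y ^ 2 = g ^ 3 * (t * ((t - 1) * (t + 1))) := by
        rw [hy', hmt]; ring
      have h9 := congrArg w h8
      rw [map_pow, map_mul, map_mul, map_mul, hwt, h6, h7, map_pow] at h9
      rw [map_div₀, div_pow, h9]
      field_simp
    · obtain ⟨s, hs0, hs⟩ := hsq (g / m) (by
        rw [map_div₀, div_lt_iff₀ (zero_lt_iff.2 hwm), one_mul]; exact h1)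
      have h3 : y ^ 2 = m * (m * s) ^ 2 := by
        rw [hy', mul_pow, hs]
        field_simp
      have h4 : m * s ≠ 0 := mul_ne_zero hm hs0
      refine ⟨y / (m * s), div_ne_zero hy0 h4, Or.inl ?_⟩
      rw [div_pow, h3, mul_div_assoc, div_self (pow_ne_zero 2 h4), mul_one]

end

section

variable {K : Type} [Field K] [NumberField K] (e : ZI ≃+* 𝓞 K)
variable {z : ZI} (hz : Prime z)

/-- the local condition at an odd prime dividing `g` -/
lemma loc_bad2 (hP : PP z) {g d d' D' : ZI} (h2 : ¬ z ∣ 2) (hDsq : Squarefree g) (hzD : z ∣ g)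
    {b w : K} (hw : w ≠ 0) (hb : b = em0 e d * w ^ 2)
    (h : ∃ y m : (plc e hz).adicCompletion K, y ≠ 0 ∧ ph e hz b * y ^ 2 = m ∧
      S1 0 (-(ph e hz (em0 e g)) ^ 2) m) :
    (¬ z ∣ d → qr z d = 1) ∧ (Squarefree d → z ∣ d → d * d' = g * D' ^ 2 → ¬ z ∣ d' → qr z d' = 1) := by
  obtain ⟨y, m, hy, hym, hm⟩ := h
  have hD0 : g ≠ 0 := hDsq.ne_zero
  have h2' : (plc e hz).valuation K 2 = 1 := by
    have := val_one e hz h2
    rwa [map_ofNat] at this
  have h2'' : vv (plc e hz) 2 = 1 := by
    rw [← map_ofNat (ph e hz) 2, vv_coe]; exact h2'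
  have hwD : vv (plc e hz) (ph e hz (em0 e g)) = WithZero.exp (-1 : ℤ) := by
    rw [vv_coe, val_sqf e hz hDsq hzD]
  have hphD : ph e hz (em0 e g) ≠ 0 := (map_ne_zero _).2 (em0_ne e hD0)
  obtain ⟨c, hc, hmc⟩ := clsQ (vv (plc e hz)) (fun t ht => hens_odd (plc e hz) h2' t ht)
    (i := ph e hz (em0 e im1)) (by rw [← map_pow, Pool.Agent.Y715.Z.im1_sq, map_neg, map_one])
    hphD h2'' (fun x hx => exp_sq (hx.trans hwD)) hm
  have hpw : ph e hz w ≠ 0 := (map_ne_zero _).2 hw
  have hvy : vv (plc e hz) y ≠ 0 := (Valuation.ne_zero_iff _).2 hy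
  have hvc : vv (plc e hz) c ≠ 0 := (Valuation.ne_zero_iff _).2 hc
  have hvw : vv (plc e hz) (ph e hz w) ≠ 0 := (Valuation.ne_zero_iff _).2 hpw
  have hm2 : ph e hz (em0 e d) * (ph e hz w * y) ^ 2 = m := by
    rw [← hym, hb, map_mul, map_pow]; ring
  constructor
  · intro hzd
    rcases hmc with h1 | h1
    · apply qr_of_sqrt e hz hP hzd (x := c / (ph e hz w * y))
      rw [div_pow, ← h1, ← hm2]
      field_simp
    · exfalso
      have h3 := congrArg (vv (plc e hz)) (hm2.trans h1)
      rw [map_mul, map_mul, vv_coe, val_one e hz hzd, one_mul, map_pow, map_pow, map_mul, hwD] at h3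
      apply exp_sq (g := vv (plc e hz) (ph e hz w) * vv (plc e hz) y / vv (plc e hz) c)
      rw [div_pow, h3]
      field_simp
  · intro hd hzd hdd hzd'
    rcases hmc with h1 | h1
    · exfalso
      have h3 := congrArg (vv (plc e hz)) (hm2.trans h1)
      rw [map_mul, vv_coe, val_sqf e hz hd hzd, map_pow, map_pow, map_mul] at h3
      apply exp_sq (g := vv (plc e hz) c / (vv (plc e hz) (ph e hz w) * vv (plc e hz) y))
      rw [div_pow, ← h3]
      field_simp
    · have hpd : ph e hz (em0 e d) ≠ 0 := (map_ne_zero _).2 (em0_ne e hd.ne_zero)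
      apply qr_of_sqrt e hz hP hzd'
        (x := ph e hz (em0 e D') * (ph e hz w * y) / c)
      have h4 : ph e hz (em0 e d) * ph e hz (em0 e d') =
          ph e hz (em0 e g) * ph e hz (em0 e D') ^ 2 := by
        rw [← map_mul, ← map_mul, hdd, map_mul, map_mul, map_pow, map_pow]
      have h5 : ph e hz (em0 e d) * (ph e hz w * y) ^ 2 = ph e hz (em0 e g) * c ^ 2 := hm2.trans h1
      rw [div_pow, mul_pow]
      rw [div_eq_iff (pow_ne_zero 2 hc)]
      apply mul_left_cancel₀ (mul_ne_zero hphD hpd)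
      linear_combination (ph e hz (em0 e g) * ph e hz (em0 e D') ^ 2) * h5 -
        (ph e hz (em0 e g) * c ^ 2) * h4

end

end Pool.Agent.Run7.h843.QJ
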