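import Pool.Agent.Run7.h843.QJ.SEL

/-!
# The 2-part of Sha of `y² = x³ - g² x` over `ℚ(i)`, from the Selmer group
-/

set_option autoImplicit false
set_option linter.unusedSectionVars false

open NumberField IsDedekindDomain

namespace Pool.Agent.Run7.h843.QJ

open Pool.Agent.Y682 (S1 S2 vv vv_coe IsT Zc Zc_card Zc_lower LL1 LL2 Sq quot_eq)
open Pool.Agent.Y699
open Pool.Agent.Y715.Z
open Run7.h26.QI (cc3 GoodC core sqf_cD cc3_ne)
open H385 (ZI RQ im1 nrm)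

variable {K : Type} [Field K] [NumberField K] (e : ZI ≃+* 𝓞 K)

/-- the Selmer group of `1 + i` has the two classes `1, g` -/
def SelOK (g : ZI) : Prop := ∀ b : K, b ≠ 0 →
    (∀ v : HeightOneSpectrum (𝓞 K), ∃ y m : v.adicCompletion K, y ≠ 0 ∧
      algebraMap K (v.adicCompletion K) b * y ^ 2 = m ∧
        S1 0 (algebraMap K (v.adicCompletion K) (-(em0 e g) ^ 2)) m) →
    ∃ w : K, b = w ^ 2 ∨ b = em0 e g * w ^ 2

theorem zc_le {g : ZI} (hg : g ≠ 0) (hs : SelOK e g) {W : WeierstrassCurve K}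
    (hT : IsT W 0 (-(em0 e g) ^ 2)) : Finite (Zc W) ∧ Nat.card (Zc W) ≤ 4 := by
  classical
  have hD0 : em0 e g ≠ 0 := em0_ne e hg
  let U : Set (Kˣ ⧸ Sq K) := {(1 : Kˣ ⧸ Sq K), ((Units.mk0 (em0 e g) hD0 : Kˣ) : Kˣ ⧸ Sq K)}
  have hUf : U.Finite := Set.toFinite U
  have hfin : Finite U := hUf.to_subtype
  have hU2 : Nat.card U ≤ 2 := by
    have h1 : U.ncard ≤ 2 := by
      refine (Set.ncard_insert_le _ _).trans ?_
      rw [Set.ncard_singleton]
    exact h1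
  have key : ∀ b : Kˣ, (∃ c : K, (b : K) = c ^ 2 ∨ (b : K) = em0 e g * c ^ 2) →
      (b : Kˣ ⧸ Sq K) ∈ U := by
    rintro b ⟨c, hc⟩
    have hc0 : c ≠ 0 := by
      rintro rfl
      rcases hc with hc | hc
      · rw [zero_pow two_ne_zero] at hc; exact b.ne_zero hc
      · rw [zero_pow two_ne_zero, mul_zero] at hc; exact b.ne_zero hc
    rcases hc with hc | hc
    · left
      have h1 : (1 : Kˣ ⧸ Sq K) = ((1 : Kˣ) : Kˣ ⧸ Sq K) := rfl
      rw [h1, eq_comm, quot_eq]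
      refine ⟨Units.mk0 c hc0, Units.ext ?_⟩
      rw [Units.val_mul, Units.val_one, one_mul, Units.val_pow_eq_pow_val, Units.val_mk0, hc]
    · right
      show (b : Kˣ ⧸ Sq K) = ((Units.mk0 (em0 e g) hD0 : Kˣ) : Kˣ ⧸ Sq K)
      rw [eq_comm, quot_eq]
      refine ⟨Units.mk0 c hc0, Units.ext ?_⟩
      rw [Units.val_mul, Units.val_pow_eq_pow_val, Units.val_mk0, Units.val_mk0, hc]
  have H1 : ∀ b : Kˣ, LL1 (0 : K) (-(em0 e g) ^ 2) (b : K) → (b : Kˣ ⧸ Sq K) ∈ U := by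
    intro b hb
    apply key
    apply hs _ b.ne_zero
    intro v
    have := hb.1 v
    rwa [map_zero] at this
  have H2 : ∀ b : Kˣ, LL2 (0 : K) (-(em0 e g) ^ 2) (b : K) → (b : Kˣ ⧸ Sq K) ∈ U := by
    intro b hb
    apply key
    apply hs _ b.ne_zero
    intro v
    have := Pool.Agent.Y682.charZero_adic v
    have h1 := hb.1 v
    rw [map_zero] at h1
    refine S2_S1 (i := algebraMap K (v.adicCompletion K) (em0 e im1)) ?_ h1
    rw [← map_pow, Pool.Agent.Y715.Z.im1_sq, map_neg, map_one]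
  obtain ⟨hf, hc⟩ := Zc_card hT (U := U) (V := U) (Or.inl rfl) H1 H2
  exact ⟨hf, hc.trans (by nlinarith)⟩

/-- rank zero and no 2-torsion in Sha -/
theorem rank_sha {g : ZI} (hg : g ≠ 0) (hs : SelOK e g) {W : WeierstrassCurve K}
    (hT : IsT W 0 (-(em0 e g) ^ 2)) : Module.finrank ℤ (Pool.Agent.Y682.MP W) = 0 ∧
      ∀ x : Pool.Agent.TH841.NF.D.Sha W, 2 • x = 0 → x = 0 := by
  obtain ⟨hf, hc⟩ := zc_le e hg hs hT
  obtain ⟨h3, h4⟩ := Zc_lower hT
  have h6 : 1 ≤ Nat.card {x : Pool.Agent.TH841.NF.D.Sha W // 2 • x = 0} := by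
    have : Nonempty {x : Pool.Agent.TH841.NF.D.Sha W // 2 • x = 0} := ⟨⟨0, smul_zero _⟩⟩
    exact Nat.card_pos
  have h7 : 1 ≤ 2 ^ (Module.finrank ℤ (Pool.Agent.Y682.MP W)) := Nat.one_le_two_pow
  have h8 := h4.trans hc
  constructor
  · by_contra h9
    have h10 : 2 ≤ 2 ^ (Module.finrank ℤ (Pool.Agent.Y682.MP W)) := by
      calc 2 = 2 ^ 1 := (pow_one 2).symm
        _ ≤ _ := Nat.pow_le_pow_right (by norm_num) (by omega)
    nlinarith
  · intro x hx
    have h5 : Nat.card {x : Pool.Agent.TH841.NF.D.Sha W // 2 • x = 0} ≤ 1 := by nlinarith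
    have h9 : Subsingleton {x : Pool.Agent.TH841.NF.D.Sha W // 2 • x = 0} :=
      Finite.card_le_one_iff_subsingleton.1 h5
    have h10 := @Subsingleton.elim _ h9 ⟨x, hx⟩ ⟨0, smul_zero _⟩
    exact congrArg Subtype.val h10

theorem sha_pow2 {g : ZI} (hg : g ≠ 0) (hs : SelOK e g) {W : WeierstrassCurve K}
    (hT : IsT W 0 (-(em0 e g) ^ 2)) (n : ℕ) (x : Pool.Agent.TH841.NF.D.Sha W)
    (hx : 2 ^ n • x = 0) : x = 0 := by
  induction n with
  | zero => rwa [pow_zero, one_smul] at hx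
  | succ n ih =>
    apply ih
    apply (rank_sha e hg hs hT).2
    rw [smul_smul, mul_comm, ← pow_succ]
    exact hx

theorem t_SHA (hpar : Run7.h26.QJ.S_PAR2) : Run7.h26.QJ.S_SHA := by
  intro K _ _ e c D hc h W hT n x hx
  exact sha_pow2 e (mul_ne_zero (cc3_ne hc) h.ps.ne) (t_SEL hpar K e c D hc h) hT n x hx

end Pool.Agent.Run7.h843.QJ
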