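import Pool.Agent.Run7.h843.QJ.Two
import Pool.Agent.Run7.h843.QJ.SHA

/-!
# The Selmer group of `1 + i` for `y² = x³ - D² x`, `N(D) ≡ 5 mod 8`
-/

set_option autoImplicit false
set_option linter.unusedSectionVars false

open NumberField IsDedekindDomain WithZero

namespace Pool.Agent.Run7.h843.QJ

open Pool.Agent.Y682 (S1 S2 vv vv_coe)
open Pool.Agent.Y699
open Pool.Agent.Y715.Z
open Run7.h26.QI (odd_mod2 exists_sign prim_mod2)
open Pool.Agent.H304R2.EC.A1 (prim prim_mul prim_cancel prim_norm_odd prim_ne_zero)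
open H385 (ZI RQ im1 nrm)

section

variable {K : Type} [Field K] [NumberField K] (e : ZI ≃+* 𝓞 K)

lemma val_le_pow {z : ZI} (hz : Prime z) (a : ZI) (n : ℕ) :
    (plc e hz).valuation K (em0 e a) ≤ exp (-(n : ℤ)) ↔ z ^ n ∣ a := by
  rw [em0_apply, HeightOneSpectrum.valuation_of_algebraMap, HeightOneSpectrum.intValuation_le_pow_iff_mem]
  have h1 : (plc e hz).asIdeal = Ideal.span {e z} := rfl
  rw [h1, Ideal.span_singleton_pow, Ideal.mem_span_singleton, ← map_pow]
  constructor
  · intro h
    have := map_dvd e.symm h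
    simpa using this
  · exact fun h => map_dvd e h

lemma at2 : At2 (vv (plc e pi1_prime)) (ph e pi1_prime (em0 e im1)) := by
  refine ⟨?_, ?_, ?_⟩
  · rw [← map_pow, Pool.Agent.Y715.Z.im1_sq, map_neg, map_one]
  · have h1 : (2 : ZI) = -im1 * pi1 ^ 2 := by decide
    have h2 : (2 : (plc e pi1_prime).adicCompletion K) = ph e pi1_prime (em0 e 2) := by
      rw [map_ofNat, map_ofNat]
    rw [h2, vv_coe, h1, map_mul, map_mul, val_one e pi1_prime, one_mul, map_pow, map_pow, val_z e pi1_prime,
      sq, ← exp_add]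
    · norm_num
    · intro h
      exact Run7.h26.QI.pi1_im1 ((dvd_neg).1 h)
  · intro t ht
    obtain ⟨k, hk⟩ := Pool.Agent.Y682.exists_approx (plc e pi1_prime) t 1 one_ne_zero
    have hwk : vv (plc e pi1_prime) (ph e pi1_prime k) ≤ 1 := by
      have : ph e pi1_prime k = (ph e pi1_prime k - t) + t := by ring
      rw [this]
      exact (Valuation.map_add _ _ _).trans (max_le hk.le ht.le)
    have hwk' : (plc e pi1_prime).valuation K k ≤ 1 := by rwa [vv_coe] at hwk
    obtain ⟨c', hc'⟩ := HeightOneSpectrum.exists_valuation_sub_lt_of_integer (plc e pi1_prime) hwk' 1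
    obtain ⟨c, rfl⟩ := e.surjective c'
    have hc1 : vv (plc e pi1_prime) (ph e pi1_prime (em0 e c) - t) < 1 := by
      have h2 : ph e pi1_prime (em0 e c) - t = ph e pi1_prime (em0 e c - k) + (ph e pi1_prime k - t) := by
        rw [map_sub]; ring
      rw [h2]
      refine lt_of_le_of_lt (Valuation.map_add _ _ _) (max_lt ?_ hk)
      rw [vv_coe]
      exact hc'
    have hcn : ¬ pi1 ∣ c := by
      intro h
      have h3 := (val_lt e pi1_prime c).2 h
      rw [← vv_coe] at h3
      have h4 : t = ph e pi1_prime (em0 e c) - (ph e pi1_prime (em0 e c) - t) := by ring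
      have h5 : vv (plc e pi1_prime) t < 1 := by
        rw [h4]
        exact lt_of_le_of_lt (Valuation.map_sub _ _ _) (max_lt h3 hc1)
      rw [ht] at h5
      exact lt_irrefl _ h5
    have hc2 : pi1 ∣ c - 1 := by
      rcases odd_mod2 hcn with h | h
      · exact pi1_two.trans h
      · have h3 : c - 1 = (c - im1) + (im1 - 1) := by ring
        rw [h3]
        exact dvd_add (pi1_two.trans h) ⟨im1, by decide⟩
    have h3 := (val_lt e pi1_prime (c - 1)).2 hc2
    rw [← vv_coe] at h3
    have h4 : t - 1 = ph e pi1_prime (em0 e (c - 1)) - (ph e pi1_prime (em0 e c) - t) := by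
      rw [map_sub, map_sub, map_one, map_one]; ring
    rw [h4]
    exact lt_of_le_of_lt (Valuation.map_sub _ _ _) (max_lt h3 hc1)

lemma four_dvd {a : ZI} (h : vv (plc e pi1_prime) (ph e pi1_prime (em0 e a)) ≤ exp (-4 : ℤ)) :
    (4 : ZI) ∣ a := by
  rw [vv_coe] at h
  have h1 := (val_le_pow e pi1_prime a 4).1 (by simpa using h)
  have h2 : pi1 ^ 4 = -(4 : ZI) := by decide
  rw [h2] at h1
  exact (neg_dvd).1 h1

lemma two_dvd {a : ZI} (h : vv (plc e pi1_prime) (ph e pi1_prime (em0 e a)) ≤ exp (-2 : ℤ)) :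
    (2 : ZI) ∣ a := by
  rw [vv_coe] at h
  have h1 := (val_le_pow e pi1_prime a 2).1 (by simpa using h)
  have h2 : pi1 ^ 2 = (2 : ZI) * im1 := by decide
  rw [h2] at h1
  exact (Dvd.intro _ rfl).trans h1

lemma norm_of_four {D s : ZI} (hs : s = 1 ∨ s = -1) (h : (4 : ZI) ∣ D - s) : D.norm % 8 = 1 := by
  obtain ⟨w, hw⟩ := h
  have e1 := congrArg Zsqrtd.re hw
  have e2 := congrArg Zsqrtd.im hw
  rcases hs with rfl | rfl
  · simp at e1 e2
    have a1 : D.re = 1 + 4 * w.re := by linarith
    rw [Zsqrtd.norm_def, a1, e2]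
    have : (1 + 4 * w.re) * (1 + 4 * w.re) - -1 * (4 * w.im) * (4 * w.im) =
        1 + 8 * (w.re + 2 * w.re ^ 2 + 2 * w.im ^ 2) := by ring
    rw [this]
    omega
  · simp at e1 e2
    have a1 : D.re = -1 + 4 * w.re := by linarith
    rw [Zsqrtd.norm_def, a1, e2]
    have : (-1 + 4 * w.re) * (-1 + 4 * w.re) - -1 * (4 * w.im) * (4 * w.im) =
        1 + 8 * (-w.re + 2 * w.re ^ 2 + 2 * w.im ^ 2) := by ring
    rw [this]
    omega

/-- **the Selmer group** for `g = D`, `N(D) ≡ 5 mod 8` -/
theorem sel_one {D : ZI} (hg : Good D) : SelOK e D := by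
  intro b hb hloc
  have hD := hg.ps
  obtain ⟨d, d', w, hd, hw, hbd, hodd⟩ := sel_div e hD.sqf hb hloc
  have h2 := at2 e
  have hD1 : ¬ pi1 ∣ D := pi1_prim hD.prm
  have hdn : ¬ pi1 ∣ d := fun h => hD1 (by rw [hd]; exact h.mul_right _)
  have hpar : (2 : ZI) ∣ d - 1 ∨ (2 : ZI) ∣ d' - 1 := by
    obtain ⟨y, m, hy, hym, hm⟩ := hloc (plc e pi1_prime)
    have h3 := h2.unit_case (g := ph e pi1_prime (em0 e D)) (d := ph e pi1_prime (em0 e d))
      (d' := ph e pi1_prime (em0 e d')) (z := ph e pi1_prime w * y) (m := m) ?_ ?_ ?_ ?_ ?_ ?_ ?_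
    · rcases h3 with h4 | h4
      · left
        apply two_dvd e
        rw [map_sub, map_sub, map_one, map_one]
        exact h4
      · right
        apply two_dvd e
        rw [map_sub, map_sub, map_one, map_one]
        exact h4
    · rw [vv_coe, val_one e pi1_prime hD1]
    · rw [← map_mul, ← map_mul, ← hd]
    · rw [vv_coe, val_one e pi1_prime hdn]
    · exact mul_ne_zero ((map_ne_zero _).2 hw) hy
    · rw [← hym, hbd, map_mul, map_pow]; ring
    · have h5 : -(ph e pi1_prime (em0 e D)) ^ 2 =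
          algebraMap K ((plc e pi1_prime).adicCompletion K) (-(em0 e D) ^ 2) := by
        rw [map_neg, map_pow]
      rw [h5]
      exact hm
    · intro s hs hs4
      have h5 := hg.five
      rcases h2.sq4 hs with h6 | h6
      · have h7 : (4 : ZI) ∣ D - 1 := by
          apply four_dvd e
          rw [map_sub, map_sub, map_one, map_one]
          have : ph e pi1_prime (em0 e D) - 1 = (s ^ 2 - 1) - (s ^ 2 - ph e pi1_prime (em0 e D)) := by ring
          rw [this]
          exact wle' h6 hs4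
        have := norm_of_four (Or.inl rfl) h7
        omega
      · have h7 : (4 : ZI) ∣ D - (-1) := by
          apply four_dvd e
          rw [map_sub, map_sub, map_neg, map_neg, map_one, map_one]
          have : ph e pi1_prime (em0 e D) - (-1) = (s ^ 2 + 1) - (s ^ 2 - ph e pi1_prime (em0 e D)) := by ring
          rw [this]
          exact wle' h6 hs4
        have := norm_of_four (Or.inr rfl) h7
        omega
  have hD2 := prim_mod2 hD.prm
  have h2d : (2 : ZI) ∣ d - 1 := by
    rcases hpar with h | h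
    · exact h
    · obtain ⟨a, ha⟩ := h
      obtain ⟨c, hc⟩ := hD2
      refine ⟨c - d * a, ?_⟩
      linear_combination hc - hd - d * ha
  obtain ⟨s, hs, hp⟩ := exists_sign h2d
  have hs1 : s * s = 1 := by rcases hs with h | h <;> rw [h] <;> ring
  have hDs : D = (s * d) * (s * d') := by
    rw [hd]; linear_combination (-(d * d')) * hs1
  have hp' : prim (s * d') := prim_cancel hp (by rw [← hDs]; exact hD.prm)
  have hqe : ∀ π, PP π → ∀ a : ZI, qr π (s * a) = qr π a := by
    intro π hπ a
    rcases hs with h | h <;> rw [h]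
    · rw [one_mul]
    · rw [neg_one_mul, qr_neg hπ]
  have hdvd : ∀ (a : ZI) (π : ZI), π ∣ s * a → π ∣ a := by
    intro a π h
    have : a = s * (s * a) := by rw [← mul_assoc, hs1, one_mul]
    rw [this]
    exact h.mul_left _
  have hker := hg.ker (s * d) (s * d') hp hp' hDs ?_ ?_
  · rcases hker with h3 | h3
    · have h4 : d = s := by
        have : s * (s * d) = s := by rw [h3, mul_one]
        rwa [← mul_assoc, hs1, one_mul] at this
      rcases hs with h5 | h5
      · exact ⟨w, Or.inl (by rw [hbd, h4, h5, map_one, one_mul])⟩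
      · refine ⟨em0 e im1 * w, Or.inl ?_⟩
        rw [hbd, h4, h5, mul_pow, Pool.Agent.Y715.Z.im1_sq, map_neg, map_one]
    · have h4 : d' = s := by
        have : s * (s * d') = s := by rw [h3, mul_one]
        rwa [← mul_assoc, hs1, one_mul] at this
      have hgd : em0 e D = em0 e d * em0 e s := by rw [← h4, ← map_mul, ← hd]
      rcases hs with h5 | h5
      · refine ⟨w, Or.inr ?_⟩
        rw [hbd, hgd, h5, map_one, mul_one]
      · refine ⟨em0 e im1 * w, Or.inr ?_⟩
        rw [hbd, hgd, h5, mul_pow, Pool.Agent.Y715.Z.im1_sq, map_neg, map_one]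
        ring
  · intro π hπ
    obtain ⟨p1, p2⟩ := (mem_PD (prim_ne_zero hp)).1 hπ
    rw [hqe π p1]
    have p3 := hdvd _ _ p2
    exact (hodd π p1 (by rw [hd]; exact p3.mul_right _)).2 p3
  · intro π hπ
    obtain ⟨p1, p2⟩ := (mem_PD (prim_ne_zero hp')).1 hπ
    rw [hqe π p1]
    have p3 := hdvd _ _ p2
    refine (hodd π p1 (by rw [hd]; exact p3.mul_left _)).1 ?_
    rintro ⟨r, hr⟩
    obtain ⟨r', hr'⟩ := p3
    exact p1.pr.not_isUnit (hD.sqf π ⟨r * r', by rw [hd, hr', hr]; ring⟩)

end

end Pool.Agent.Run7.h843.QJ
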