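import Pool.Agent.Run7.h843.QJ.Loc
import Pool.Agent.Run7.h26.QJ.Stm

/-!
# The Selmer group of `1 + i` for `y² = x³ - g² x`
-/

set_option autoImplicit false
set_option linter.unusedSectionVars false

open NumberField IsDedekindDomain

namespace Pool.Agent.Run7.h843.QJ

open Pool.Agent.Y682 (S1 S2 vv vv_coe)
open Pool.Agent.Y699
open Pool.Agent.Y715.Z
open Run7.h26.QI (cc3 GoodC core sqf_cD dvd_of_primes)
open H385 (ZI RQ im1 nrm)

variable {K : Type} [Field K] [NumberField K] (e : ZI ≃+* 𝓞 K)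

/-- the divisor of a class which is locally in the images: the odd local conditions -/
theorem sel_div {g : ZI} (hg : Squarefree g)
    {b : K} (hb : b ≠ 0)
    (h : ∀ v : HeightOneSpectrum (𝓞 K), ∃ y m : v.adicCompletion K, y ≠ 0 ∧
      algebraMap K (v.adicCompletion K) b * y ^ 2 = m ∧
        S1 0 (algebraMap K (v.adicCompletion K) (-(em0 e g) ^ 2)) m) :
    ∃ (d d' : ZI) (w : K), g = d * d' ∧ w ≠ 0 ∧ b = em0 e d * w ^ 2 ∧
      ∀ π, PP π → π ∣ g → (¬ π ∣ d → qr π d = 1) ∧ (π ∣ d → qr π d' = 1) := by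
  classical
  obtain ⟨d, w, hd, hw, hbd⟩ := exists_sqf e hb
  have hprime : ∀ ρ : ZI, Prime ρ → ρ ∣ d → ρ ∣ g := by
    intro ρ hρ hρd
    by_contra hρD
    have h1 : ¬ ρ ∣ -g ^ 2 := fun h' => hρD (hρ.dvd_of_dvd_pow ((dvd_neg).1 h'))
    refine not_dvd_of_loc e hρ h1 hd hw hbd ?_ hρd
    have h2 := h (plc e hρ)
    have h3 : em0 e (-g ^ 2) = -(em0 e g) ^ 2 := by rw [map_neg, map_pow]
    rw [h3]
    exact h2
  obtain ⟨d', hd'⟩ := dvd_of_primes hd hprime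
  refine ⟨d, d', w, hd', hw, hbd, ?_⟩
  intro π hπ hπg
  have h2 := h (plc e hπ.pr)
  obtain ⟨h3, h4⟩ := loc_bad2 (d := d) (d' := d') (D' := 1) e hπ.pr hπ (not_dvd_two hπ) hg hπg hw hbd
    (by
      obtain ⟨y, m, hy, hym, hm⟩ := h2
      refine ⟨y, m, hy, hym, ?_⟩
      have h5 : -(ph e hπ.pr (em0 e g)) ^ 2 =
          algebraMap K ((plc e hπ.pr).adicCompletion K) (-(em0 e g) ^ 2) := by
        rw [map_neg, map_pow]
      rw [h5]
      exact hm)
  refine ⟨h3, fun h5 => h4 hd h5 (by rw [hd']; ring) ?_⟩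
  intro h6
  obtain ⟨r, hr⟩ := h5
  obtain ⟨r', hr'⟩ := h6
  exact hπ.pr.not_isUnit (hg π ⟨r * r', by rw [hd', hr', hr]; ring⟩)

/-- **the Selmer group**, from the condition at `1 + i` -/
theorem t_SEL (hpar : Run7.h26.QJ.S_PAR2) : Run7.h26.QJ.S_SEL := by
  intro K _ _ e c D hc h b hb hloc
  have hG := sqf_cD hc h.ps
  obtain ⟨d, d', w, hd, hw, hbd, hodd⟩ := sel_div e hG hb hloc
  have hoddD : ∀ π, PP π → π ∣ D → (¬ π ∣ d → qr π d = 1) ∧ (π ∣ d → qr π d' = 1) :=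
    fun π hπ hdv => hodd π hπ (hdv.mul_left c)
  have h2 : (2 : ZI) ∣ d - 1 ∨ (2 : ZI) ∣ d' - 1 := by
    obtain ⟨y, m, hy, hym, hm⟩ := hloc (plc e pi1_prime)
    refine hpar K e c D d d' hc h.ps hd (algebraMap K _ w * y) m
      (mul_ne_zero ((map_ne_zero _).2 hw) hy) ?_ hm
    rw [← hym, hbd, map_mul, map_pow]
    ring
  rcases h2 with h2 | h2
  · rcases core hc h hd h2 hoddD with h3 | h3
    · exact ⟨w, Or.inl (by rw [hbd, h3, map_one, one_mul])⟩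
    · refine ⟨em0 e im1 * w, Or.inl ?_⟩
      rw [hbd, h3, mul_pow, Pool.Agent.Y715.Z.im1_sq, map_neg, map_one]
  · have hloc' : ∀ π, PP π → π ∣ D → (¬ π ∣ d' → qr π d' = 1) ∧ (π ∣ d' → qr π d = 1) := by
      intro π hπ hdv
      obtain ⟨p1, p2⟩ := hoddD π hπ hdv
      have h4 : π ∣ d * d' := by rw [← hd]; exact hdv.mul_left c
      refine ⟨fun h5 => p2 ((hπ.pr.dvd_or_dvd h4).resolve_right h5), fun h5 => p1 ?_⟩
      rintro ⟨r, hr⟩
      obtain ⟨r', hr'⟩ := h5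
      exact hπ.pr.not_isUnit (hG π ⟨r * r', by rw [hd, hr', hr]; ring⟩)
    have h1e : (em0 e 1 : K) = 1 := map_one _
    have hgd : ∀ s : ZI, d' = s → em0 e (c * D) = em0 e d * em0 e s := by
      intro s hs
      rw [hd, hs, map_mul]
    rcases core hc h (hd.trans (mul_comm _ _)) h2 hloc' with h3 | h3
    · refine ⟨w, Or.inr ?_⟩
      rw [hbd, hgd _ h3, h1e, mul_one]
    · refine ⟨em0 e im1 * w, Or.inr ?_⟩
      rw [hbd, hgd _ h3, mul_pow, Pool.Agent.Y715.Z.im1_sq, map_neg, map_one]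
      ring

end Pool.Agent.Run7.h843.QJ
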