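import Pool.Agent.Run7.h843.QJ.Loc

/-!
# The local condition at `1 + i` for the torsors of the isogeny `1 + i` on `y² = x³ - g² x`, `g` a unit
-/

set_option autoImplicit false
set_option linter.unusedSectionVars false

open NumberField IsDedekindDomain WithZero

namespace Pool.Agent.Run7.h843.QJ

open Pool.Agent.Y682 (S1 S2 vv vv_coe)

section

variable {L : Type} [Field L] (w : Valuation L (WithZero (Multiplicative ℤ)))

/-- discreteness -/
lemma le_exp {x : L} {n : ℤ} (h : w x < exp n) : w x ≤ exp (n - 1) := by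
  by_cases h0 : w x = 0
  · rw [h0]; exact zero_le
  · rw [← exp_log h0] at h ⊢
    rw [exp_lt_exp] at h
    rw [exp_le_exp]
    omega

/-- the setting at the place above two of `ℚ(i)` -/
structure At2 (w : Valuation L (WithZero (Multiplicative ℤ))) (j : L) : Prop where
  jj : j ^ 2 = -1
  two : w 2 = exp (-2 : ℤ)
  res : ∀ t : L, w t = 1 → w (t - 1) < 1

variable {w} {j : L}

lemma At2.wj (h : At2 w j) : w j = 1 := by
  have h1 := congrArg w h.jj
  rw [map_pow, Valuation.map_neg, map_one] at h1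
  rcases lt_trichotomy (w j) 1 with h2 | h2 | h2
  · exact absurd h1 (ne_of_lt (pow_lt_one₀ zero_le h2 two_ne_zero))
  · exact h2
  · exact absurd h1 (ne_of_gt (one_lt_pow₀ h2 two_ne_zero))

lemma At2.two0 (h : At2 w j) : (2 : L) ≠ 0 := by
  intro h0
  have := h.two
  rw [h0, map_zero] at this
  exact exp_ne_zero this.symm

lemma At2.wp (h : At2 w j) : w (1 + j) = exp (-1 : ℤ) := by
  have h1 : (1 + j) ^ 2 = 2 * j := by linear_combination h.jj
  have h2 := congrArg w h1
  rw [map_pow, map_mul, h.two, h.wj, mul_one] at h2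
  have h0 : w (1 + j) ≠ 0 := by
    intro h3
    rw [h3, zero_pow two_ne_zero] at h2
    exact exp_ne_zero h2.symm
  have h3 := congrArg log h2
  rw [log_pow, log_exp] at h3
  have h4 : (2 : ℤ) * log (w (1 + j)) = -2 := by rw [← h3]; simp
  rw [← exp_log h0]
  congr 1
  omega

lemma wle {a b : L} {c : WithZero (Multiplicative ℤ)} (ha : w a ≤ c) (hb : w b ≤ c) : w (a + b) ≤ c :=
  (Valuation.map_add _ _ _).trans (max_le ha hb)

lemma wle' {a b : L} {c : WithZero (Multiplicative ℤ)} (ha : w a ≤ c) (hb : w b ≤ c) : w (a - b) ≤ c :=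
  (Valuation.map_sub _ _ _).trans (max_le ha hb)

/-- a unit is `1` plus a multiple of `1 + i` -/
lemma At2.repr (h : At2 w j) {x : L} (hx : w x = 1) : ∃ y, x = 1 + (1 + j) * y ∧ w y ≤ 1 := by
  have hp := h.wp
  have hp0 : 1 + j ≠ 0 := by
    intro h0
    rw [h0, map_zero] at hp
    exact exp_ne_zero hp.symm
  refine ⟨(x - 1) / (1 + j), ?_, ?_⟩
  · field_simp
    ring
  · have h1 : w (x - 1) < exp (0 : ℤ) := by rw [exp_zero]; exact h.res x hx
    have h2 := le_exp w h1
    rw [map_div₀, hp, div_le_iff₀ (by exact_mod_cast (exp_pos (a := (-1 : ℤ)))), one_mul]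
    exact h2

lemma At2.half (h : At2 w j) {y : L} (hy : w y ≤ 1) : w (y * (y - j)) ≤ exp (-1 : ℤ) := by
  have h0 : exp (0 : ℤ) = (1 : WithZero (Multiplicative ℤ)) := exp_zero
  rcases hy.lt_or_eq with h1 | h1
  · have h2 : w y ≤ exp (-1 : ℤ) := le_exp w (n := 0) (by rw [h0]; exact h1)
    rw [map_mul]
    calc w y * w (y - j) ≤ exp (-1 : ℤ) * 1 :=
          mul_le_mul' h2 (wle' hy h.wj.le)
      _ = exp (-1 : ℤ) := mul_one _
  · have h2 : w (y - j) < 1 := by
      have h3 := h.res y h1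
      have h4 := h.res j h.wj
      have e : y - j = (y - 1) - (j - 1) := by ring
      rw [e]
      exact lt_of_le_of_lt (Valuation.map_sub _ _ _) (max_lt h3 h4)
    have h3 : w (y - j) ≤ exp (-1 : ℤ) := le_exp w (n := 0) (by rw [h0]; exact h2)
    rw [map_mul, h1, one_mul]
    exact h3

/-- the main estimate -/
lemma At2.phi (h : At2 w j) {x : L} (hx : w x = 1) :
    w (x ^ 2 - j * (1 + j) * x - j) ≤ exp (-3 : ℤ) := by
  obtain ⟨y, hy, hy1⟩ := h.repr hx
  have hp := h.wp
  have e : x ^ 2 - j * (1 + j) * x - j =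
      2 * (1 + j) * (y - j) + (1 + j) ^ 2 * (y * (y - j)) := by
    rw [hy]
    linear_combination h.jj
  rw [e]
  refine wle ?_ ?_
  · rw [map_mul, map_mul, h.two, hp]
    calc exp (-2 : ℤ) * exp (-1 : ℤ) * w (y - j) ≤ exp (-2 : ℤ) * exp (-1 : ℤ) * 1 :=
          mul_le_mul' le_rfl (wle' hy1 h.wj.le)
      _ = exp (-3 : ℤ) := by rw [mul_one, ← exp_add]; norm_num
  · rw [map_mul, map_pow, hp]
    calc exp (-1 : ℤ) ^ 2 * w (y * (y - j)) ≤ exp (-1 : ℤ) ^ 2 * exp (-1 : ℤ) :=
          mul_le_mul' le_rfl (h.half hy1)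
      _ = exp (-3 : ℤ) := by rw [sq, ← exp_add, ← exp_add]; norm_num

lemma At2.p0 (h : At2 w j) : 1 + j ≠ 0 := by
  intro h0
  have hp := h.wp
  rw [h0, map_zero] at hp
  exact exp_ne_zero hp.symm

/-- the squares of the units -/
lemma At2.sq4 (h : At2 w j) {s : L} (hs : w s = 1) :
    w (s ^ 2 - 1) ≤ exp (-4 : ℤ) ∨ w (s ^ 2 + 1) ≤ exp (-4 : ℤ) := by
  obtain ⟨t, ht, ht1⟩ := h.repr hs
  have hp := h.wp
  have h0 : exp (0 : ℤ) = (1 : WithZero (Multiplicative ℤ)) := exp_zero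
  rcases ht1.lt_or_eq with h1 | h1
  · left
    have h2 : w t ≤ exp (-1 : ℤ) := le_exp w (n := 0) (by rw [h0]; exact h1)
    have e : s ^ 2 - 1 = (1 + j) ^ 2 * t * (t - j * (1 + j)) := by
      rw [ht]
      linear_combination ((1 + j) * t * (j + 2)) * h.jj
    rw [e, map_mul, map_mul, map_pow, hp]
    have h3 : w (t - j * (1 + j)) ≤ exp (-1 : ℤ) := by
      refine wle' h2 ?_
      rw [map_mul, h.wj, hp, one_mul]
    calc exp (-1 : ℤ) ^ 2 * w t * w (t - j * (1 + j)) ≤ exp (-1 : ℤ) ^ 2 * exp (-1 : ℤ) * exp (-1 : ℤ) :=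
          mul_le_mul' (mul_le_mul' le_rfl h2) h3
      _ = exp (-4 : ℤ) := by rw [sq, ← exp_add, ← exp_add, ← exp_add]; norm_num
  · right
    have e : s ^ 2 + 1 = (1 + j) ^ 2 * (t ^ 2 - j * (1 + j) * t - j) := by
      rw [ht]
      linear_combination ((j + 2) * (1 + (1 + j) * t)) * h.jj
    rw [e, map_mul, map_pow, hp]
    calc exp (-1 : ℤ) ^ 2 * w (t ^ 2 - j * (1 + j) * t - j) ≤ exp (-1 : ℤ) ^ 2 * exp (-3 : ℤ) :=
          mul_le_mul' le_rfl (h.phi h1)
      _ ≤ exp (-4 : ℤ) := by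
          rw [sq, ← exp_add, ← exp_add, exp_le_exp]; norm_num

lemma At2.sq2 (h : At2 w j) {s : L} (hs : w s = 1) : w (s ^ 2 - 1) ≤ exp (-2 : ℤ) := by
  rcases h.sq4 hs with h1 | h1
  · exact h1.trans (exp_le_exp.2 (by norm_num))
  · have e : s ^ 2 - 1 = (s ^ 2 + 1) - 2 := by ring
    rw [e]
    exact wle' (h1.trans (exp_le_exp.2 (by norm_num))) h.two.le

lemma unit_of_sq {x : L} (hx : w x ^ 2 = 1) : w x = 1 := by
  rcases lt_trichotomy (w x) 1 with h2 | h2 | h2
  · exact absurd hx (ne_of_lt (pow_lt_one₀ zero_le h2 two_ne_zero))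
  · exact h2
  · exact absurd hx (ne_of_gt (one_lt_pow₀ h2 two_ne_zero))

/-- `d s² ≡ 1` modulo `2` for a unit `s` gives `d ≡ 1` modulo `2` -/
lemma At2.of_sq (h : At2 w j) {d s : L} (hd : w d = 1) (hs : w s = 1) (hds : w (d * s ^ 2 - 1) ≤ exp (-2 : ℤ)) :
    w (d - 1) ≤ exp (-2 : ℤ) := by
  have e : d - 1 = (d * s ^ 2 - 1) - d * (s ^ 2 - 1) := by ring
  rw [e]
  refine wle' hds ?_
  rw [map_mul, hd, one_mul]
  exact h.sq2 hs

lemma even_sq {x : L} (h : w x ^ 2 < 1) : w x ^ 2 ≤ exp (-2 : ℤ) := by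
  have h0 : exp (0 : ℤ) = (1 : WithZero (Multiplicative ℤ)) := exp_zero
  have h1 : w x < 1 := by
    by_contra h2
    exact absurd h (not_lt.2 (one_le_pow₀ (not_lt.1 h2)))
  have h2 : w x ≤ exp (-1 : ℤ) := le_exp w (n := 0) (by rw [h0]; exact h1)
  calc w x ^ 2 ≤ exp (-1 : ℤ) ^ 2 := pow_le_pow_left₀ zero_le h2 2
    _ = exp (-2 : ℤ) := by rw [sq, ← exp_add]; norm_num

lemma key_id {g x : L} (hj : j ^ 2 = -1) (hg : g ≠ 0) (hp : 1 + j ≠ 0) (hx : x ≠ 0) :
    g * (1 + (1 + j) * x) * ((g * (1 + (1 + j) * x)) ^ 2 - g ^ 2) / (g * (1 + j) * x) ^ 2 - g =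
      g * ((1 + j) * (x ^ 2 - j * (1 + j) * x - j) / x) := by
  field_simp
  linear_combination (x * (j ^ 2 + 3 * j + 2) + x ^ 2 * (j ^ 3 + 4 * j ^ 2 + 5 * j + 2)) * hj

/-- **the unit case**: the class of a member of the local image is `1` modulo `2` -/
lemma At2.unit_case (h : At2 w j) {g d d' z m : L} (hg : w g = 1) (hgd : g = d * d') (hd : w d = 1)
    (hz : z ≠ 0) (hm : d * z ^ 2 = m) (hS : S1 0 (-g ^ 2) m)
    (hns : ∀ s : L, w s = 1 → ¬ w (s ^ 2 - g) ≤ exp (-4 : ℤ)) :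
    w (d - 1) ≤ exp (-2 : ℤ) ∨ w (d' - 1) ≤ exp (-2 : ℤ) := by
  have hj0 : j ≠ 0 := by
    intro h0
    have := h.wj
    rw [h0, map_zero] at this
    exact zero_ne_one this
  have hg0 : g ≠ 0 := by
    rintro rfl
    rw [map_zero] at hg
    exact zero_ne_one hg
  have hd0 : d ≠ 0 := by
    rintro rfl
    rw [map_zero] at hd
    exact zero_ne_one hd
  have hd'0 : d' ≠ 0 := by
    rintro rfl
    exact hg0 (by rw [hgd, mul_zero])
  have hd' : w d' = 1 := by
    have h1 := congrArg w hgd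
    rw [map_mul, hd, one_mul, hg] at h1
    exact h1.symm
  have hm0 : m ≠ 0 := by
    rw [← hm]; exact mul_ne_zero hd0 (pow_ne_zero 2 hz)
  have hwm : w m = w z ^ 2 := by rw [← hm, map_mul, hd, one_mul, map_pow]
  have hz0 : w z ≠ 0 := (Valuation.ne_zero_iff _).2 hz
  -- a class which is a square
  have hsqc : ∀ s : L, d = s ^ 2 → w (d - 1) ≤ exp (-2 : ℤ) := by
    intro s hs
    have h1 : w s = 1 := unit_of_sq (by rw [← map_pow, ← hs]; exact hd)
    rw [hs]
    exact h.sq2 h1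
  have hsqc' : ∀ s : L, d' = s ^ 2 → w (d' - 1) ≤ exp (-2 : ℤ) := by
    intro s hs
    have h1 : w s = 1 := unit_of_sq (by rw [← map_pow, ← hs]; exact hd')
    rw [hs]
    exact h.sq2 h1
  -- the class from `1 - r²`
  have hrr : ∀ r s : L, w r ^ 2 ≤ exp (-2 : ℤ) → d * s ^ 2 = 1 - r ^ 2 → w (d - 1) ≤ exp (-2 : ℤ) := by
    intro r s hr hs
    have h1 : w (1 - r ^ 2) = 1 := by
      apply Valuation.map_one_sub_of_lt
      rw [map_pow]
      refine lt_of_le_of_lt hr ?_
      rw [← exp_zero, exp_lt_exp]; norm_num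
    have h2 : w s = 1 := by
      apply unit_of_sq
      have h3 := congrArg w hs
      rw [map_mul, hd, one_mul, map_pow, h1] at h3
      exact h3
    apply h.of_sq hd h2
    rw [hs]
    have e : 1 - r ^ 2 - 1 = -(r ^ 2) := by ring
    rw [e, Valuation.map_neg, map_pow]
    exact hr
  rcases hS with h1 | h1 | ⟨-, y, hy⟩
  · left
    apply hsqc (1 / z)
    rw [div_pow, one_pow, eq_div_iff (pow_ne_zero 2 hz), hm, h1]
  · left
    apply hsqc (j * g / z)
    rw [div_pow, mul_pow, h.jj, eq_div_iff (pow_ne_zero 2 hz), hm, h1]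
    ring
  have hy' : y ^ 2 = m * (m ^ 2 - g ^ 2) := by rw [hy]; ring
  by_cases hy0 : y = 0
  · right
    rw [hy0, zero_pow two_ne_zero] at hy'
    have h3 : m ^ 2 - g ^ 2 = 0 := (mul_eq_zero.1 hy'.symm).resolve_left hm0
    have h4 : (m - g) * (m + g) = 0 := by linear_combination h3
    rcases mul_eq_zero.1 h4 with h5 | h5
    · apply hsqc' z
      apply mul_left_cancel₀ hd0
      linear_combination -hgd - hm - h5
    · apply hsqc' (j * z)
      apply mul_left_cancel₀ hd0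
      linear_combination -hgd + hm + h5 - d * z ^ 2 * h.jj
  rcases lt_trichotomy (w m) 1 with h1 | h1 | h1
  · left
    apply hrr (m / g) (y / (j * g * (d * z)))
    · rw [map_div₀, hg, div_one, hwm]
      have h2 := even_sq (by rw [← hwm]; exact h1)
      calc (w z ^ 2) ^ 2 ≤ exp (-2 : ℤ) ^ 2 := pow_le_pow_left₀ zero_le h2 2
        _ ≤ exp (-2 : ℤ) := by rw [sq, ← exp_add, exp_le_exp]; norm_num
    · rw [div_pow, div_pow, mul_pow, mul_pow, mul_pow, h.jj, hy']
      rw [← hm]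
      field_simp
      ring
  · -- the same valuation
    set t : L := m / g with ht
    have hmt : m = g * t := by rw [ht]; field_simp
    have hwt : w t = 1 := by rw [ht, map_div₀, h1, hg, div_one]
    have hwz : w z = 1 := unit_of_sq (by rw [← hwm]; exact h1)
    -- `t ≡ 1` modulo `1 + j`, not modulo `2`
    by_cases h2 : w (t - 1) ≤ exp (-2 : ℤ)
    · right
      have h5 : t * d' = z ^ 2 := by
        apply mul_left_cancel₀ hd0
        rw [hm, hmt, hgd]; ring
      have e : d' - 1 = (z ^ 2 - 1) - d' * (t - 1) := by rw [← h5]; ring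
      rw [e]
      refine wle' (h.sq2 hwz) ?_
      rw [map_mul, hd', one_mul]
      exact h2
    · exfalso
      have h0 : exp (0 : ℤ) = (1 : WithZero (Multiplicative ℤ)) := exp_zero
      have h3 : w (t - 1) ≤ exp (-1 : ℤ) := le_exp w (n := 0) (by rw [h0]; exact h.res t hwt)
      have h4 : w (t - 1) = exp (-1 : ℤ) := by
        refine le_antisymm h3 ?_
        by_contra h5
        exact h2 (le_exp w (n := -1) (not_le.1 h5))
      have hp := h.wp
      have hp0 := h.p0
      set x : L := (t - 1) / (1 + j) with hx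
      have hwx : w x = 1 := by
        rw [hx, map_div₀, h4, hp]; exact div_self exp_ne_zero
      have hx0 : x ≠ 0 := by
        intro h5
        rw [h5, map_zero] at hwx
        exact zero_ne_one hwx
      have htx : t = 1 + (1 + j) * x := by rw [hx]; field_simp; ring
      have hs2 : (y / (g * (1 + j) * x)) ^ 2 - g =
          g * ((1 + j) * (x ^ 2 - j * (1 + j) * x - j) / x) := by
        rw [div_pow, hy', hmt, htx]
        clear_value x
        exact key_id h.jj hg0 hp0 hx0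
      have hws : w ((y / (g * (1 + j) * x)) ^ 2 - g) ≤ exp (-4 : ℤ) := by
        rw [hs2, map_mul, hg, one_mul, map_div₀, map_mul, hwx, div_one, hp]
        calc exp (-1 : ℤ) * w (x ^ 2 - j * (1 + j) * x - j) ≤ exp (-1 : ℤ) * exp (-3 : ℤ) :=
              mul_le_mul' le_rfl (h.phi hwx)
          _ = exp (-4 : ℤ) := by rw [← exp_add]; norm_num
      refine hns _ ?_ hws
      apply unit_of_sq
      rw [← map_pow]
      have e : (y / (g * (1 + j) * x)) ^ 2 = g + ((y / (g * (1 + j) * x)) ^ 2 - g) := by ring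
      rw [e, Valuation.map_add_eq_of_lt_left, hg]
      rw [hg]
      refine lt_of_le_of_lt hws ?_
      rw [← exp_zero, exp_lt_exp]; norm_num
  · left
    apply hrr (g / m) (y / (m * (d * z)))
    · have h2 : w (1 / z) ^ 2 < 1 := by
        rw [map_div₀, map_one, div_pow, one_pow, ← hwm]
        rw [div_lt_one₀ (zero_lt_iff.2 ((Valuation.ne_zero_iff _).2 hm0))]
        exact h1
      have h3 := even_sq h2
      rw [map_div₀, hg, hwm]
      have h4 : 1 / w z ^ 2 = w (1 / z) ^ 2 := by rw [map_div₀, map_one, div_pow, one_pow]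
      rw [h4]
      calc (w (1 / z) ^ 2) ^ 2 ≤ exp (-2 : ℤ) ^ 2 := pow_le_pow_left₀ zero_le h3 2
        _ ≤ exp (-2 : ℤ) := by rw [sq, ← exp_add, exp_le_exp]; norm_num
    · rw [div_pow, div_pow, mul_pow, mul_pow, hy']
      rw [← hm]
      field_simp

end

end Pool.Agent.Run7.h843.QJ
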